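import Mathlib
import Pool.Agent.Lib.MP_950c68_ag.OrbSemi

/-!
# Functions invariant under the kernel of an orbit with four elements (module Avg, MP_950c68_ag)

`G` is a finite group acting on `Ω`, `ι` an element which commutes with the action and acts as an
involution without fixed points; `FourType ι x` (OrbSemi.lean): there is `g` with `g ^ 2 = ι` at
`x` and the orbit of `x` is `{x, ι x, g x, ι g x}`.

Proof of `index_four`: `Stab(x)` has index `4` (the four elements are distinct since
`g x = x` or `g x = ι x` would give `ι x = g ^ 2 x = x`); `N` is the intersection of `Stab(x)` and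
`Stab(g x)`, and the orbit of `g x` under `Stab(x)` is contained in `{g x, ι g x}`; so `N` has index
`4` or `8`.

Proof of `eq_zero_of_invariant`: let `g` be as in `FourType`; then `g ^ 2 ι⁻¹` fixes the orbit of
`x`, so is in `N`, hence `d (g g z) = d (ι z) = - d z` for all `z`.  `N` is normal; let `c` be the
number of the orbits of `N` on the orbit `O` of `y`; all have the same number of elements, so `c`
divides `Nat.card O`; and `G ⧸ N` acts transitively on them, so `c` divides the index of `N`, so
`c ∣ 8`.  If `4 ∤ Nat.card O` then `c ≤ 2`.  If `Nat.card O = 4` then `N` does not act trivially on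
`O`, so the orbits of `N` have at least two elements and `c ≤ 2` again.  So `g` permutes at most two
orbits of `N`, and `g g z` is in the orbit of `z` under `N`; hence `d z = d (g g z) = - d z`.
-/

namespace Pool.Agent.Lib.MP_950c68_ag.Surf

open MulAction Pool.Agent.Lib.MP_950c68_ag.Orb

variable {G Ω : Type*} [Group G] [MulAction G Ω]

theorem index_four [Finite G] {ι : G} (hι : ∀ (g : G) (y : Ω), g • ι • y = ι • g • y)
    (hιι : ∀ y : Ω, ι • ι • y = y) (hιne : ∀ y : Ω, ι • y ≠ y) {x : Ω} (hx : FourType ι x)
    {N : Subgroup G} (hN : ∀ g : G, g ∈ N ↔ ∀ z ∈ orbit G x, g • z = z) :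
    N.index = 4 ∨ N.index = 8 := by
  classical
  obtain ⟨g, hg, hor⟩ := hx
  have h1 : g • x ≠ x := by
    intro h
    rw [h, h] at hg
    exact hιne x hg.symm
  have h2 : g • x ≠ ι • x := by
    intro h
    rw [h, hι, h, hιι] at hg
    exact hιne x hg.symm
  have h3 : ι • g • x ≠ x := by
    intro h
    apply h2
    rw [← hιι (g • x), h]
  have horb : orbit G x = {x, ι • x, g • x, ι • g • x} := by
    ext z
    constructor
    · intro hz
      rcases hor z hz with rfl | rfl | rfl | rfl <;> simp
    · rintro (rfl | rfl | rfl | rfl)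
      · exact mem_orbit_self z
      · exact mem_orbit _ _
      · exact mem_orbit _ _
      · rw [← mul_smul]
        exact mem_orbit _ _
  have hcard : (orbit G x).ncard = 4 := by
    rw [horb, Set.ncard_insert_of_notMem, Set.ncard_insert_of_notMem, Set.ncard_pair]
    · exact (hιne _).symm
    · rintro (h | h)
      · exact h2 h.symm
      · apply h1
        have h4 := congrArg (fun z => ι • z) h
        simp only [hιι] at h4
        exact h4.symm
    · rintro (h | h | h)
      · exact hιne x h.symm
      · exact h1 h.symm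
      · exact h3 h.symm
  have hidx : (stabilizer G x).index = 4 := by rw [index_stabilizer, hcard]
  have hle : N ≤ stabilizer G x := fun n hn => (hN n).1 hn x (mem_orbit_self x)
  have heq : N.subgroupOf (stabilizer G x) = stabilizer (stabilizer G x) (g • x) := by
    ext h
    rw [Subgroup.mem_subgroupOf, mem_stabilizer_iff, hN]
    constructor
    · intro hh
      exact hh _ (mem_orbit _ _)
    · intro hh z hz
      have hhx : (h : G) • x = x := h.2
      have hhg : (h : G) • g • x = g • x := hh
      rcases hor z hz with rfl | rfl | rfl | rfl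
      · exact hhx
      · rw [hι, hhx]
      · exact hhg
      · rw [hι, hhg]
  have hle2 : (orbit (stabilizer G x) (g • x)).ncard ≤ 2 := by
    have hsub : orbit (stabilizer G x) (g • x) ⊆ {g • x, ι • g • x} := by
      rintro _ ⟨h, rfl⟩
      have hhx : (h : G) • x = x := h.2
      have hz : (h : G) • g • x ∈ orbit G x := by
        rw [← mul_smul]
        exact mem_orbit _ _
      show (h : G) • g • x ∈ _
      rcases hor _ hz with h4 | h4 | h4 | h4
      · exfalso
        apply h1
        have h5 : g • x = (h : G)⁻¹ • x := by rw [eq_inv_smul_iff, h4]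
        rw [h5]
        exact inv_smul_eq_iff.2 hhx.symm
      · exfalso
        apply h2
        have h5 : g • x = (h : G)⁻¹ • ι • x := by rw [eq_inv_smul_iff, h4]
        rw [h5, hι]
        exact congrArg (fun z => ι • z) (inv_smul_eq_iff.2 hhx.symm)
      · rw [h4]
        exact Set.mem_insert _ _
      · rw [h4]
        exact Set.mem_insert_of_mem _ rfl
    calc _ ≤ ({g • x, ι • g • x} : Set Ω).ncard := Set.ncard_le_ncard hsub
      _ = 2 := Set.ncard_pair (hιne _).symm
  have hpos : 0 < (orbit (stabilizer G x) (g • x)).ncard := by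
    rw [← index_stabilizer]
    exact Nat.pos_of_ne_zero Subgroup.FiniteIndex.index_ne_zero
  have hmul : N.relIndex (stabilizer G x) * (stabilizer G x).index = N.index :=
    Subgroup.relIndex_mul_index hle
  have hrel : N.relIndex (stabilizer G x) = (orbit (stabilizer G x) (g • x)).ncard := by
    rw [Subgroup.relIndex, heq, index_stabilizer]
  rw [hrel, hidx] at hmul
  omega

theorem eq_zero_of_invariant [Finite G] {ι : G} (hι : ∀ (g : G) (y : Ω), g • ι • y = ι • g • y)
    (hιι : ∀ y : Ω, ι • ι • y = y) (hιne : ∀ y : Ω, ι • y ≠ y) {x : Ω} (hx : FourType ι x)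
    {N : Subgroup G} (hN : ∀ g : G, g ∈ N ↔ ∀ z ∈ orbit G x, g • z = z) {y : Ω}
    (hy : ¬ 4 ∣ Nat.card (orbit G y) ∨
      Nat.card (orbit G y) = 4 ∧ ∃ g ∈ N, ∃ z ∈ orbit G y, g • z ≠ z)
    {d : Ω → ℤ} (hanti : ∀ z, d (ι • z) = - d z) (hd : ∀ g ∈ N, ∀ z, d (g • z) = d z) :
    ∀ z ∈ orbit G y, d z = 0 := by
  classical
  have h8 : N.index ∣ 8 := by
    rcases index_four hι hιι hιne hx hN with h | h
    · rw [h]
      exact ⟨2, rfl⟩
    · rw [h]
  have hnorm : N.Normal := by
    refine ⟨fun n hn k => (hN _).2 fun z hz => ?_⟩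
    have h1 : k⁻¹ • z ∈ orbit G x := mem_orbit_smul k⁻¹ hz
    rw [mul_smul, mul_smul, (hN n).1 hn _ h1, smul_inv_smul]
  obtain ⟨g, hg, hor⟩ := hx
  have hsq : ∀ z, d (g • g • z) = - d z := by
    intro z
    have hn : ι⁻¹ * (g * g) ∈ N := by
      rw [hN]
      intro w hw
      rw [mul_smul, mul_smul, FourType.sq hι hg hor w hw, inv_smul_smul]
    have h1 := hd _ hn z
    have h2 := hanti ((ι⁻¹ * (g * g)) • z)
    rw [h1] at h2
    rw [← h2, mul_smul, mul_smul, smul_inv_smul]
  intro z hz
  have hyz : orbit G z = orbit G y := orbit_eq_iff.2 hz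
  -- the stabilizer of the `N`-orbit of `z`
  have hcN : (N ⊔ stabilizer G z).index ∣ N.index := Subgroup.index_dvd_of_le le_sup_left
  have hcz : (N ⊔ stabilizer G z).index ∣ (stabilizer G z).index :=
    Subgroup.index_dvd_of_le le_sup_right
  have hst : (stabilizer G z).index = Nat.card (orbit G y) := by
    rw [index_stabilizer, hyz]
    rfl
  have hc8 : (N ⊔ stabilizer G z).index ∣ 8 := hcN.trans h8
  have hc2 : (N ⊔ stabilizer G z).index ≤ 2 := by
    have hdiv : (N ⊔ stabilizer G z).index ∈ Nat.divisors 8 :=
      Nat.mem_divisors.2 ⟨hc8, by norm_num⟩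
    have hlist : Nat.divisors 8 = {1, 2, 4, 8} := by decide
    rw [hlist] at hdiv
    simp only [Finset.mem_insert, Finset.mem_singleton] at hdiv
    rcases hy with h4 | ⟨h4, n, hn, w, hw, hnw⟩
    · rw [hst] at hcz
      rcases hdiv with h | h | h | h
      · omega
      · omega
      · rw [h] at hcz
        exact absurd hcz h4
      · rw [h] at hcz
        exact absurd ((show 4 ∣ 8 from ⟨2, rfl⟩).trans hcz) h4
    · rw [hst, h4] at hcz
      have hne4 : (N ⊔ stabilizer G z).index ≠ 4 := by
        intro h
        have hle : stabilizer G z ≤ N ⊔ stabilizer G z := le_sup_right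
        have h5 := Subgroup.relIndex_mul_index hle
        rw [h, hst, h4] at h5
        have h6 : (stabilizer G z).relIndex (N ⊔ stabilizer G z) = 1 := by omega
        have h7 : N ⊔ stabilizer G z ≤ stabilizer G z := Subgroup.relIndex_eq_one.1 h6
        have h8' : N ≤ stabilizer G z := le_sup_left.trans h7
        rw [← hyz] at hw
        obtain ⟨k, rfl⟩ := hw
        apply hnw
        have h9 : (k⁻¹ * n * k⁻¹⁻¹) • z = z := h8' (hnorm.conj_mem n hn k⁻¹)
        rw [inv_inv, mul_smul, mul_smul, inv_smul_eq_iff] at h9
        exact h9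
      have hle4 := Nat.le_of_dvd (by norm_num) hcz
      rcases hdiv with h | h | h | h <;> omega
  have hmem : g * g ∈ N ⊔ stabilizer G z := by
    have h0 : (N ⊔ stabilizer G z).index ≠ 0 := Subgroup.FiniteIndex.index_ne_zero
    rcases (show (N ⊔ stabilizer G z).index = 1 ∨ (N ⊔ stabilizer G z).index = 2 by omega)
      with h | h
    · rw [Subgroup.index_eq_one.1 h]
      exact Subgroup.mem_top _
    · rw [← sq]
      exact Subgroup.sq_mem_of_index_two h g
  rw [← SetLike.mem_coe, Subgroup.normal_mul] at hmem
  obtain ⟨n, hn, s, hs, hns⟩ := hmem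
  have h1 : g • g • z = n • z := by
    have hs' : s • z = z := hs
    have hns' : n * s = g * g := hns
    rw [← mul_smul, ← hns', mul_smul, hs']
  have h2 := hsq z
  rw [h1, hd n hn] at h2
  omega

end Pool.Agent.Lib.MP_950c68_ag.Surf
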