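import Mathlib
import Pool.Agent.Lib.MP_950c68_ag.OrbSemi

/-!
# Families of orbits with four elements and the same kernel (module Rot, MP_950c68_ag)

`FourType ι x` (OrbSemi.lean): there is `g` with `g • g • x = ι • x` and the orbit of `x` is
`{x, ι x, g x, ι g x}`; see also `FourType.sq` there.

Proof of `exists_rot`: take `x ∈ C` and `g` as in `FourType ι x`; `g ^ 2 ι⁻¹` fixes the orbit of
`x`, hence all orbits in `C` (`kernel`), so `g g z = ι z` for `z ∈ C`.  So `g z ≠ z`, `g z ≠ ι z`
and, since the orbit of `z` has four elements at most (`four`), it is `{z, ι z, g z, ι g z}` (the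
orbit in `FourType ι z` is `{z, ι z, g' z, ι g' z}` and `g z` is one of `g' z`, `ι g' z`).
Third part: let `m = k g k⁻¹`; `m m x = ι x`, so `m x` is `g x` or `ι g x` (`m x = x` or `ι x` would
give `m m x = x`).  If `m x = g x` then `m g x = m m x = ι x = g g x`, so `g⁻¹ m` fixes `x` and
`g x`, hence (commuting with `ι`) the whole orbit of `x`, hence all orbits in `C`: `m z = g z` for all
`z ∈ C`; apply it to `k z`.  If `m x = ι g x` then `m (ι g x) = ι x` gives `m g x = x = ι g g x` and
`m` acts as `ι g` on the orbit of `x`, hence on `C` in the same way.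
Fourth part: `k x` is `x`, `ι x`, `g x` or `ι g x`; as `k` commutes with `g` and `ι`, it acts on the
orbit of `x` as `1`, `ι`, `g` or `ι g`, hence on `C` by `kernel`.
-/

namespace Pool.Agent.Lib.MP_950c68_ag.Surf

open MulAction Pool.Agent.Lib.MP_950c68_ag.Orb

variable {G Ω : Type*} [Group G] [MulAction G Ω]

/-- A family of orbits with four elements and the same kernel. -/
structure Clus (ι : G) (C : Set Ω) : Prop where
  comm : ∀ (g : G) (y : Ω), g • ι • y = ι • g • y
  invol : ∀ y : Ω, ι • ι • y = y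
  ne : ∀ y : Ω, ι • y ≠ y
  smul : ∀ y ∈ C, ∀ g : G, g • y ∈ C
  four : ∀ y ∈ C, FourType ι y
  kernel : ∀ y ∈ C, ∀ z ∈ C, ∀ g : G,
    (∀ w ∈ orbit G y, g • w = w) → ∀ w ∈ orbit G z, g • w = w

theorem Clus.exists_rot {ι : G} {C : Set Ω} (h : Clus ι C) (hne : C.Nonempty) :
    ∃ g : G, (∀ z ∈ C, g • g • z = ι • z) ∧
      (∀ z ∈ C, ∀ w ∈ orbit G z, w = z ∨ w = ι • z ∨ w = g • z ∨ w = ι • g • z) ∧
      (∀ k : G, (∀ z ∈ C, k • g • z = g • k • z) ∨ (∀ z ∈ C, k • g • z = ι • g • k • z)) ∧
      ∀ k : G, (∀ z ∈ C, k • g • z = g • k • z) →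
        (∀ z ∈ C, k • z = z) ∨ (∀ z ∈ C, k • z = ι • z) ∨ (∀ z ∈ C, k • z = g • z) ∨
          (∀ z ∈ C, k • z = ι • g • z) := by
  obtain ⟨x, hx⟩ := hne
  obtain ⟨g, hg, horb⟩ := h.four x hx
  have ext : ∀ k l : G, (∀ w ∈ orbit G x, k • w = l • w) → ∀ z ∈ C, k • z = l • z := by
    intro k l hkl z hz
    have h1 := h.kernel x hx z hz (l⁻¹ * k) (fun w hw => by
      rw [mul_smul, hkl w hw, inv_smul_smul]) z (mem_orbit_self z)
    rw [mul_smul] at h1
    exact (inv_smul_eq_iff.1 h1)
  have ext4 : ∀ k l : G, k • x = l • x → k • g • x = l • g • x → ∀ z ∈ C, k • z = l • z := by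
    intro k l h1 h2
    refine ext k l fun w hw => ?_
    rcases horb w hw with rfl | rfl | rfl | rfl
    · exact h1
    · rw [h.comm, h.comm l, h1]
    · exact h2
    · rw [h.comm, h.comm l, h2]
  have hsq : ∀ z ∈ C, g • g • z = ι • z := by
    intro z hz
    have h1 := ext (g * g) ι (fun w hw => by
      rw [mul_smul]
      exact FourType.sq h.comm hg horb w hw) z hz
    rwa [mul_smul] at h1
  refine ⟨g, hsq, ?_, ?_, ?_⟩
  · intro z hz w hw
    obtain ⟨g', hg', horb'⟩ := h.four z hz
    have h2 := hsq z hz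
    have h3 : g • z = g' • z ∨ g • z = ι • g' • z := by
      rcases horb' (g • z) (mem_orbit z g) with h4 | h4 | h4 | h4
      · exact absurd (by rw [← h2, h4, h4]) (h.ne z)
      · exact absurd (by rw [← h2, h4, h.comm, h4, h.invol]) (h.ne z)
      · exact Or.inl h4
      · exact Or.inr h4
    rcases h3 with h3 | h3
    · rw [h3]
      exact horb' w hw
    · have h5 : g' • z = ι • g • z := by rw [h3, h.invol]
      rcases horb' w hw with h4 | h4 | h4 | h4
      · exact Or.inl h4
      · exact Or.inr (Or.inl h4)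
      · exact Or.inr (Or.inr (Or.inr (h4.trans h5)))
      · exact Or.inr (Or.inr (Or.inl (h4.trans h3.symm)))
  · intro k
    have hm : ∀ y : Ω, (k * g * k⁻¹) • y = k • g • k⁻¹ • y := fun y => by
      rw [mul_smul, mul_smul]
    have hkx : k⁻¹ • x ∈ C := h.smul x hx k⁻¹
    have hmm : (k * g * k⁻¹) • (k * g * k⁻¹) • x = ι • x := by
      rw [hm, hm, inv_smul_smul, hsq _ hkx, h.comm, smul_inv_smul]
    obtain ⟨m, hmdef⟩ : ∃ m, m = k * g * k⁻¹ := ⟨_, rfl⟩
    rw [← hmdef] at hm hmm
    rcases horb (m • x) (mem_orbit x m) with h4 | h4 | h4 | h4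
    · exact absurd (by rw [← hmm, h4, h4]) (h.ne x)
    · exact absurd (by rw [← hmm, h4, h.comm, h4, h.invol]) (h.ne x)
    · left
      intro z hz
      have h5 := ext4 m g h4 (by rw [← h4, hmm, h4, hg]) (k • z) (h.smul z hz k)
      rwa [hm, inv_smul_smul] at h5
    · right
      intro z hz
      have h6 : g • x = ι • m • x := by rw [h4, h.invol]
      have h5 := ext4 m (ι * g) (by rw [mul_smul]; exact h4) (by
        rw [mul_smul, hg, h.invol, h6, h.comm, hmm, h.invol]) (k • z) (h.smul z hz k)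
      rwa [hm, inv_smul_smul, mul_smul] at h5
  · intro k hk
    have hkg := hk x hx
    rcases horb (k • x) (mem_orbit x k) with h4 | h4 | h4 | h4
    · left
      intro z hz
      have h5 := ext4 k 1 (by rw [one_smul]; exact h4) (by rw [hkg, h4, one_smul]) z hz
      rwa [one_smul] at h5
    · right; left
      exact ext4 k ι h4 (by rw [hkg, h4, h.comm])
    · right; right; left
      exact ext4 k g h4 (by rw [hkg, h4])
    · right; right; right
      intro z hz
      have h5 := ext4 k (ι * g) (by rw [mul_smul]; exact h4) (by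
        rw [mul_smul, hkg, h4, h.comm]) z hz
      rwa [mul_smul] at h5

end Pool.Agent.Lib.MP_950c68_ag.Surf
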