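import Mathlib
import Pool.Agent.Lib.MP_950c68_ag.Surf.Rot

/-!
# Relations generated by relations with at most four terms (module Mov, MP_950c68_ag)

Proof of `mem_of_move`: write `e_z = vec ι {z}` (`1` at `z`, `-1` at `ι z`, `0` elsewhere).  Let `M`
be the set of `d : Ω → ℤ` such that there is `a ∈ RelSub` with `d - a` antisymmetric and zero outside
of `B`; it is an additive subgroup.  It contains `e_z` for `z ∈ B` (`a = 0`) and for `z ∈ C \ B`: take
`w = k • z` and `u` from `hmove`; then `u' = k⁻¹ • (w ::ₘ u)` has at most four members, all in `C`,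
all sums `∑_{y ∈ u'} ν (g y)` are zero, so `a = vec ι u' = e_z + ∑_{y ∈ u} e_{k⁻¹ y} ∈ RelSub` and
`e_z - a` is antisymmetric and zero outside `B`.  So `M` contains every antisymmetric `d` which is
zero outside of `C`: induction on the number of `y` with `d y ≠ 0`: if `d y ≠ 0` then
`d - d y • e_y` has a smaller support (`d (ι y) = - d y`, `y ≠ ι y`).  Finally let `d` be as in the
theorem and `a ∈ RelSub` with `d' = d - a` antisymmetric and zero outside of `B`.  All members of
`RelSub` satisfy `∑_y a y * ν (g y) = 0` for all `g` (`∑_y (vec ι u) y * ν (g y) =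
2 ∑_{y ∈ u} ν (g y)`, by `hν`), so `d'` does, and `d' = 0` by `hindep`.
-/

namespace Pool.Agent.Lib.MP_950c68_ag.Surf

open MulAction Pool.Agent.Lib.MP_950c68_ag.Orb

variable {G Ω : Type*} [Group G] [MulAction G Ω]

open scoped Classical in
/-- The relation of a multiset. -/
noncomputable def vec (ι : G) (u : Multiset Ω) (y : Ω) : ℤ := (u.count y : ℤ) - u.count (ι • y)

/-- The relations generated by relations with at most four terms. -/
noncomputable def RelSub (ι : G) (ν : Ω → ℝ) (C : Set Ω) : AddSubgroup (Ω → ℤ) :=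
  AddSubgroup.closure {e | ∃ u : Multiset Ω, Multiset.card u ≤ 4 ∧ (∀ y ∈ u, y ∈ C) ∧
    (∀ g : G, (u.map fun y => ν (g • y)).sum = 0) ∧ e = vec ι u}

open scoped Classical in
private theorem mov_single (ι : G) (z y : Ω) :
    vec ι {z} y = (if y = z then 1 else 0) - (if ι • y = z then 1 else 0) := by
  unfold vec
  rw [Multiset.count_singleton, Multiset.count_singleton]
  push_cast
  rfl

private theorem mov_cons (ι : G) (z : Ω) (u : Multiset Ω) :
    vec ι (z ::ₘ u) = vec ι {z} + vec ι u := by
  classical
  funext y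
  rw [Pi.add_apply]
  unfold vec
  rw [Multiset.count_cons, Multiset.count_cons, Multiset.count_singleton,
    Multiset.count_singleton]
  push_cast
  ring

private theorem mov_anti {ι : G} {C : Set Ω} (h : Clus ι C) (u : Multiset Ω) (y : Ω) :
    vec ι u (ι • y) = - vec ι u y := by
  unfold vec
  rw [h.invol]
  ring

private theorem mov_zero {ι : G} {C : Set Ω} (h : Clus ι C) {B : Set Ω}
    (hB : ∀ y ∈ B, ∀ g : G, g • y ∈ B) {u : Multiset Ω} (hu : ∀ y ∈ u, y ∈ B) {y : Ω}
    (hy : y ∉ B) : vec ι u y = 0 := by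
  classical
  unfold vec
  have h1 : y ∉ u := fun h1 => hy (hu y h1)
  have h2 : ι • y ∉ u := fun h2 => hy (by
    have h3 := hB _ (hu _ h2) ι
    rwa [h.invol] at h3)
  rw [Multiset.count_eq_zero_of_notMem h1, Multiset.count_eq_zero_of_notMem h2]
  simp

/-- antisymmetric functions which are zero outside of `B` -/
private def movN (ι : G) (B : Set Ω) : AddSubgroup (Ω → ℤ) where
  carrier := {d | (∀ y, d (ι • y) = - d y) ∧ ∀ y, y ∉ B → d y = 0}
  add_mem' := by
    rintro a b ⟨h1, h2⟩ ⟨h3, h4⟩
    refine ⟨fun y => ?_, fun y hy => ?_⟩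
    · rw [Pi.add_apply, Pi.add_apply, h1, h3]
      ring
    · rw [Pi.add_apply, h2 y hy, h4 y hy, add_zero]
  zero_mem' := ⟨fun _ => by simp, fun _ _ => rfl⟩
  neg_mem' := by
    rintro a ⟨h1, h2⟩
    refine ⟨fun y => ?_, fun y hy => ?_⟩
    · rw [Pi.neg_apply, Pi.neg_apply, h1]
    · rw [Pi.neg_apply, h2 y hy, neg_zero]

open scoped Classical in
private theorem mov_count [Fintype Ω] (u : Multiset Ω) (f : Ω → ℝ) :
    ∑ y, (u.count y : ℝ) * f y = (u.map f).sum := by
  induction u using Multiset.induction_on with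
  | empty => simp
  | cons a s ih =>
    rw [Multiset.map_cons, Multiset.sum_cons, ← ih]
    have h1 : ∀ y, ((Multiset.count y (a ::ₘ s) : ℕ) : ℝ) * f y =
        (if y = a then f y else 0) + (s.count y : ℝ) * f y := by
      intro y
      rw [Multiset.count_cons]
      split_ifs with h2
      · push_cast
        ring
      · push_cast
        ring
    rw [Finset.sum_congr rfl fun y _ => h1 y, Finset.sum_add_distrib,
      Finset.sum_ite_eq' Finset.univ a, if_pos (Finset.mem_univ a)]

private theorem mov_rel [Fintype Ω] {ι : G} {C : Set Ω} (h : Clus ι C) {ν : Ω → ℝ}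
    (hν : ∀ y, ν (ι • y) = - ν y) {a : Ω → ℤ} (ha : a ∈ RelSub ι ν C) (g : G) :
    ∑ y, (a y : ℝ) * ν (g • y) = 0 := by
  classical
  unfold RelSub at ha
  induction ha using AddSubgroup.closure_induction with
  | mem x hx =>
    obtain ⟨u, -, -, hu, rfl⟩ := hx
    have h1 : ∀ y, (vec ι u y : ℝ) * ν (g • y) =
        (u.count y : ℝ) * ν (g • y) - (u.count (ι • y) : ℝ) * ν (g • y) := by
      intro y
      unfold vec
      push_cast
      rw [sub_mul]
    rw [Finset.sum_congr rfl fun y _ => h1 y, Finset.sum_sub_distrib, mov_count, hu g]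
    have h2 : ∑ y, (u.count (ι • y) : ℝ) * ν (g • y) =
        ∑ y, (u.count y : ℝ) * ν (g • ι • y) := by
      rw [← Equiv.sum_comp (MulAction.toPerm ι)
        (fun y => (u.count y : ℝ) * ν (g • ι • y))]
      refine Finset.sum_congr rfl fun y _ => ?_
      rw [MulAction.toPerm_apply, h.invol]
    have h3 : ∀ y, (u.count y : ℝ) * ν (g • ι • y) = -((u.count y : ℝ) * ν (g • y)) := by
      intro y
      rw [h.comm, hν]
      ring
    rw [h2, Finset.sum_congr rfl fun y _ => h3 y, Finset.sum_neg_distrib, mov_count, hu g]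
    simp
  | zero => simp
  | add x y _ _ hx hy =>
    have h1 : ∀ z, ((x + y) z : ℝ) * ν (g • z) = (x z : ℝ) * ν (g • z) + (y z : ℝ) * ν (g • z) := by
      intro z
      rw [Pi.add_apply]
      push_cast
      ring
    rw [Finset.sum_congr rfl fun z _ => h1 z, Finset.sum_add_distrib, hx, hy, add_zero]
  | neg x _ hx =>
    have h1 : ∀ z, ((-x) z : ℝ) * ν (g • z) = -((x z : ℝ) * ν (g • z)) := by
      intro z
      rw [Pi.neg_apply]
      push_cast
      ring
    rw [Finset.sum_congr rfl fun z _ => h1 z, Finset.sum_neg_distrib, hx, neg_zero]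

theorem Clus.mem_of_move [Fintype Ω] {ι : G} {C : Set Ω} (h : Clus ι C) {ν : Ω → ℝ}
    (hν : ∀ y, ν (ι • y) = - ν y) {B : Set Ω} (hBC : B ⊆ C) (hB : ∀ y ∈ B, ∀ g : G, g • y ∈ B)
    (hmove : ∀ z ∈ C, z ∉ B → ∃ w ∈ orbit G z, ∃ u : Multiset Ω, Multiset.card u ≤ 3 ∧
      (∀ y ∈ u, y ∈ B) ∧ ∀ g : G, ν (g • w) + (u.map fun y => ν (g • y)).sum = 0)
    (hindep : ∀ d : Ω → ℤ, (∀ y, d (ι • y) = - d y) → (∀ y, y ∉ B → d y = 0) →
      (∀ g : G, ∑ y, (d y : ℝ) * ν (g • y) = 0) → d = 0)
    {d : Ω → ℤ} (hanti : ∀ y, d (ι • y) = - d y) (hsupp : ∀ y, y ∉ C → d y = 0)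
    (hrel : ∀ g : G, ∑ y, (d y : ℝ) * ν (g • y) = 0) : d ∈ RelSub ι ν C := by
  classical
  -- single vectors
  have hsingle : ∀ z ∈ C, vec ι {z} ∈ RelSub ι ν C ⊔ movN ι B := by
    intro z hz
    by_cases hzB : z ∈ B
    · refine AddSubgroup.mem_sup_right ⟨mov_anti h {z}, fun y hy => mov_zero h hB ?_ hy⟩
      intro y hy'
      rw [Multiset.mem_singleton.1 hy']
      exact hzB
    · obtain ⟨w, ⟨k, hk⟩, u, hu3, huB, hu⟩ := hmove z hz hzB
      simp only at hk
      have hkw : k⁻¹ • w = z := by rw [← hk, inv_smul_smul]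
      have e1 : vec ι (z ::ₘ u.map fun y => k⁻¹ • y) ∈ RelSub ι ν C := by
        refine AddSubgroup.subset_closure ⟨_, ?_, ?_, ?_, rfl⟩
        · rw [Multiset.card_cons, Multiset.card_map]
          omega
        · intro y hy
          rcases Multiset.mem_cons.1 hy with rfl | hy
          · exact hz
          · obtain ⟨y', hy', rfl⟩ := Multiset.mem_map.1 hy
            exact hBC (hB _ (huB _ hy') _)
        · intro g
          have h1 := hu (g * k⁻¹)
          rw [Multiset.map_cons, Multiset.sum_cons, Multiset.map_map, ← hkw]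
          simp only [mul_smul] at h1
          exact h1
      have e2 : vec ι (u.map fun y => k⁻¹ • y) ∈ movN ι B := by
        refine ⟨mov_anti h _, fun y hy => mov_zero h hB ?_ hy⟩
        intro y hy2
        obtain ⟨y', hy3, rfl⟩ := Multiset.mem_map.1 hy2
        exact hB _ (huB _ hy3) _
      have e3 : vec ι {z} = vec ι (z ::ₘ u.map fun y => k⁻¹ • y) +
          -vec ι (u.map fun y => k⁻¹ • y) := by
        rw [mov_cons]
        abel
      rw [e3]
      exact add_mem (AddSubgroup.mem_sup_left e1) (AddSubgroup.mem_sup_right (neg_mem e2))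
  -- all antisymmetric functions
  have hall : ∀ (n : ℕ) (d : Ω → ℤ), (Finset.univ.filter fun y => d y ≠ 0).card = n →
      (∀ y, d (ι • y) = - d y) → (∀ y, y ∉ C → d y = 0) → d ∈ RelSub ι ν C ⊔ movN ι B := by
    intro n
    induction n using Nat.strong_induction_on with
    | _ n ih =>
      intro d hn hd1 hd2
      by_cases hd0 : ∃ y, d y ≠ 0
      · obtain ⟨y, hy⟩ := hd0
        have hyC : y ∈ C := by
          by_contra hc
          exact hy (hd2 y hc)
        have hιy := h.ne y
        have e1 : vec ι {y} y = 1 := by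
          rw [mov_single, if_pos rfl, if_neg hιy]
          norm_num
        have e2 : ∀ x, vec ι {y} x ≠ 0 → x = y ∨ x = ι • y := by
          intro x hx
          rw [mov_single] at hx
          by_cases h1 : x = y
          · exact Or.inl h1
          · by_cases h2 : ι • x = y
            · right
              rw [← h2, h.invol]
            · rw [if_neg h1, if_neg h2] at hx
              exact absurd (sub_zero _) hx
        have hanti' : ∀ x, (d - d y • vec ι {y}) (ι • x) = -(d - d y • vec ι {y}) x := by
          intro x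
          simp only [Pi.sub_apply, Pi.smul_apply, smul_eq_mul]
          rw [hd1, mov_anti h]
          ring
        have hy0 : (d - d y • vec ι {y}) y = 0 := by
          simp only [Pi.sub_apply, Pi.smul_apply, smul_eq_mul]
          rw [e1]
          ring
        have hzero : ∀ x, d x = 0 → (d - d y • vec ι {y}) x = 0 := by
          intro x hx
          by_cases hv : vec ι {y} x = 0
          · simp only [Pi.sub_apply, Pi.smul_apply, smul_eq_mul]
            rw [hx, hv]
            ring
          · rcases e2 x hv with rfl | rfl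
            · exact hy0
            · rw [hanti' y, hy0, neg_zero]
        have hcard : (Finset.univ.filter fun x => (d - d y • vec ι {y}) x ≠ 0).card < n := by
          rw [← hn]
          refine Finset.card_lt_card ⟨fun x hx => ?_, fun hcon => ?_⟩
          · rw [Finset.mem_filter] at hx ⊢
            exact ⟨Finset.mem_univ _, fun h0 => hx.2 (hzero x h0)⟩
          · have h1 : y ∈ Finset.univ.filter fun x => d x ≠ 0 :=
              Finset.mem_filter.2 ⟨Finset.mem_univ _, hy⟩
            exact (Finset.mem_filter.1 (hcon h1)).2 hy0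
        have h1 := ih _ hcard (d - d y • vec ι {y}) rfl hanti' (fun x hx => hzero x (hd2 x hx))
        have h2 : d = (d - d y • vec ι {y}) + d y • vec ι {y} := by abel
        rw [h2]
        exact add_mem h1 (zsmul_mem (hsingle y hyC) _)
      · push Not at hd0
        have : d = 0 := funext hd0
        rw [this]
        exact zero_mem _
  obtain ⟨a, ha, n, hn, hadd⟩ := AddSubgroup.mem_sup.1 (hall _ d rfl hanti hsupp)
  have hn0 : n = 0 := by
    refine hindep n hn.1 hn.2 fun g => ?_
    have h1 := mov_rel h hν ha g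
    have h2 := hrel g
    have h3 : ∀ y, (d y : ℝ) * ν (g • y) = (a y : ℝ) * ν (g • y) + (n y : ℝ) * ν (g • y) := by
      intro y
      rw [← hadd, Pi.add_apply]
      push_cast
      ring
    rw [Finset.sum_congr rfl fun y _ => h3 y, Finset.sum_add_distrib, h1, zero_add] at h2
    exact h2
  rw [← hadd, hn0, add_zero]
  exact ha

end Pool.Agent.Lib.MP_950c68_ag.Surf
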