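import Mathlib
import Pool.Agent.Lib.MP_950c68_ag.OrbSemi

/-!
# Sums over one or two orbits with four elements (module Sum, MP_950c68_ag)

Proof: the terms outside of the orbit(s) are zero; the four elements `x, ι x, g x, ι g x` are
different (`g x = x` or `g x = ι x` would give `g g x = x`, but `g g x = ι x ≠ x`), and
`d (ι y) ν (k ι y) = (- d y) (- ν (k y))`.
-/

namespace Pool.Agent.Lib.MP_950c68_ag.Surf

open MulAction Pool.Agent.Lib.MP_950c68_ag.Orb

variable {G Ω : Type*} [Group G] [MulAction G Ω]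

open scoped Classical in
private theorem sum_orb [Fintype Ω] {ι : G} (hι : ∀ (g : G) (y : Ω), g • ι • y = ι • g • y)
    (hιι : ∀ y : Ω, ι • ι • y = y) (hιne : ∀ y : Ω, ι • y ≠ y) {g : G} {x : Ω}
    (hg : g • g • x = ι • x)
    (hx : ∀ w ∈ orbit G x, w = x ∨ w = ι • x ∨ w = g • x ∨ w = ι • g • x)
    (f : Ω → ℝ) (hf : ∀ y, f (ι • y) = f y) :
    ∑ z ∈ Finset.univ.filter (fun z => z ∈ orbit G x), f z = 2 * (f x + f (g • x)) := by
  have h1 : g • x ≠ x := by
    intro h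
    rw [h, h] at hg
    exact hιne x hg.symm
  have h2 : g • x ≠ ι • x := by
    intro h
    rw [h, hι, h, hιι] at hg
    exact hιne x hg.symm
  have h3 : ι • g • x ≠ x := by
    intro h
    apply h2
    have h' := congrArg (fun z => ι • z) h
    beta_reduce at h'
    rw [hιι] at h'
    exact h'
  have h4 : ι • g • x ≠ ι • x := fun h => h1 (smul_left_cancel ι h)
  have hT : Finset.univ.filter (fun z => z ∈ orbit G x) = {x, ι • x, g • x, ι • g • x} := by
    ext w
    rw [Finset.mem_filter]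
    simp only [Finset.mem_univ, true_and, Finset.mem_insert, Finset.mem_singleton]
    constructor
    · exact hx w
    · rintro (rfl | rfl | rfl | rfl)
      · exact mem_orbit_self _
      · exact mem_orbit _ _
      · exact mem_orbit _ _
      · rw [← mul_smul]
        exact mem_orbit _ _
  rw [hT, Finset.sum_insert, Finset.sum_insert, Finset.sum_insert, Finset.sum_singleton, hf, hf]
  · ring
  · rw [Finset.mem_singleton]
    exact (hιne (g • x)).symm
  · rw [Finset.mem_insert, Finset.mem_singleton, not_or]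
    exact ⟨h2.symm, h4.symm⟩
  · rw [Finset.mem_insert, Finset.mem_insert, Finset.mem_singleton, not_or, not_or]
    exact ⟨(hιne x).symm, h1.symm, h3.symm⟩

private theorem sum_term {ι : G} (hι : ∀ (g : G) (y : Ω), g • ι • y = ι • g • y)
    {ν : Ω → ℝ} (hν : ∀ y, ν (ι • y) = - ν y) {d : Ω → ℤ} (hanti : ∀ y, d (ι • y) = - d y)
    (k : G) (y : Ω) : (d (ι • y) : ℝ) * ν (k • ι • y) = (d y : ℝ) * ν (k • y) := by
  rw [hι, hν, hanti]
  push_cast
  ring

theorem sum_one_orbit [Fintype Ω] {ι : G} (hι : ∀ (g : G) (y : Ω), g • ι • y = ι • g • y)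
    (hιι : ∀ y : Ω, ι • ι • y = y) (hιne : ∀ y : Ω, ι • y ≠ y) {ν : Ω → ℝ}
    (hν : ∀ y, ν (ι • y) = - ν y) {g : G} {x : Ω} (hg : g • g • x = ι • x)
    (hx : ∀ w ∈ orbit G x, w = x ∨ w = ι • x ∨ w = g • x ∨ w = ι • g • x)
    {d : Ω → ℤ} (hanti : ∀ y, d (ι • y) = - d y) (hsupp : ∀ y, y ∉ orbit G x → d y = 0) (k : G) :
    ∑ y, (d y : ℝ) * ν (k • y) = 2 * (d x * ν (k • x) + d (g • x) * ν (k • g • x)) := by
  classical
  rw [← sum_orb hι hιι hιne hg hx (fun y => (d y : ℝ) * ν (k • y)) (sum_term hι hν hanti k)]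
  refine (Finset.sum_subset (Finset.subset_univ _) fun y _ hy => ?_).symm
  have h1 : y ∉ orbit G x := fun h => hy (Finset.mem_filter.2 ⟨Finset.mem_univ _, h⟩)
  rw [hsupp y h1, Int.cast_zero, zero_mul]

theorem sum_two_orbits [Fintype Ω] {ι : G} (hι : ∀ (g : G) (y : Ω), g • ι • y = ι • g • y)
    (hιι : ∀ y : Ω, ι • ι • y = y) (hιne : ∀ y : Ω, ι • y ≠ y) {ν : Ω → ℝ}
    (hν : ∀ y, ν (ι • y) = - ν y) {g : G} {x y : Ω} (hg : g • g • x = ι • x)
    (hx : ∀ w ∈ orbit G x, w = x ∨ w = ι • x ∨ w = g • x ∨ w = ι • g • x)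
    (hg' : g • g • y = ι • y)
    (hy : ∀ w ∈ orbit G y, w = y ∨ w = ι • y ∨ w = g • y ∨ w = ι • g • y) (hxy : y ∉ orbit G x)
    {d : Ω → ℤ} (hanti : ∀ y, d (ι • y) = - d y)
    (hsupp : ∀ z, z ∉ orbit G x → z ∉ orbit G y → d z = 0) (k : G) :
    ∑ z, (d z : ℝ) * ν (k • z) = 2 * (d x * ν (k • x) + d (g • x) * ν (k • g • x)) +
      2 * (d y * ν (k • y) + d (g • y) * ν (k • g • y)) := by
  classical
  rw [← sum_orb hι hιι hιne hg hx (fun y => (d y : ℝ) * ν (k • y)) (sum_term hι hν hanti k),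
    ← sum_orb hι hιι hιne hg' hy (fun y => (d y : ℝ) * ν (k • y)) (sum_term hι hν hanti k),
    ← Finset.sum_union]
  · refine (Finset.sum_subset (Finset.subset_univ _) fun z _ hz => ?_).symm
    rw [Finset.mem_union, not_or] at hz
    have h1 : z ∉ orbit G x := fun h => hz.1 (Finset.mem_filter.2 ⟨Finset.mem_univ _, h⟩)
    have h2 : z ∉ orbit G y := fun h => hz.2 (Finset.mem_filter.2 ⟨Finset.mem_univ _, h⟩)
    rw [hsupp z h1 h2, Int.cast_zero, zero_mul]
  · rw [Finset.disjoint_left]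
    intro z hz1 hz2
    have h1 : z ∈ orbit G x := (Finset.mem_filter.1 hz1).2
    have h2 : z ∈ orbit G y := (Finset.mem_filter.1 hz2).2
    apply hxy
    rw [← orbit_eq_iff] at h1 h2 ⊢
    rw [← h2, h1]

end Pool.Agent.Lib.MP_950c68_ag.Surf
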