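import Mathlib
import Pool.Agent.Lib.MP_950c68_ag.Surf.Mov
import Pool.Agent.Lib.MP_950c68_ag.Surf.Sum

/-!
# The relations of a family of orbits with four elements
-/

namespace Pool.Agent.Lib.MP_950c68_ag.Surf

open MulAction Pool.Agent.Lib.MP_950c68_ag.Orb

variable {G Ω : Type*} [Group G] [MulAction G Ω]

/-- The data used in the case analysis. -/
structure Cdat (ι : G) (C : Set Ω) (ν : Ω → ℝ) (g : G) : Prop where
  clus : Clus ι C
  nu : ∀ y, ν (ι • y) = - ν y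
  sq : ∀ z ∈ C, g • g • z = ι • z
  orb : ∀ z ∈ C, ∀ w ∈ orbit G z, w = z ∨ w = ι • z ∨ w = g • z ∨ w = ι • g • z
  refl : ∀ k : G, (∀ z ∈ C, k • g • z = g • k • z) ∨ (∀ z ∈ C, k • g • z = ι • g • k • z)
  rot : ∀ k : G, (∀ z ∈ C, k • g • z = g • k • z) →
        (∀ z ∈ C, k • z = z) ∨ (∀ z ∈ C, k • z = ι • z) ∨ (∀ z ∈ C, k • z = g • z) ∨
          (∀ z ∈ C, k • z = ι • g • z)
  ns : ∀ z ∈ C, ¬ (ν z = 0 ∧ ν (g • z) = 0)

namespace Cdat

variable {ι : G} {C : Set Ω} {ν : Ω → ℝ} {g : G} (h : Cdat ι C ν g)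

include h

theorem gi (y : Ω) : g • ι • y = ι • g • y := h.clus.comm g y

theorem ii (y : Ω) : ι • ι • y = y := h.clus.invol y

theorem mem {y : Ω} (hy : y ∈ C) (k : G) : k • y ∈ C := h.clus.smul y hy k

theorem nu_sq {z : Ω} (hz : z ∈ C) : ν (g • g • z) = - ν z := by rw [h.sq z hz, h.nu]

theorem nu_ig (z : Ω) : ν (ι • g • z) = - ν (g • z) := h.nu _

/-- Elements of `G` in the presence of a reflection. -/
theorem all_of_refl {τ : G} (hτ : ∀ z ∈ C, τ • g • z = ι • g • τ • z) (k : G) :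
    ((∀ z ∈ C, k • z = z) ∨ (∀ z ∈ C, k • z = ι • z) ∨ (∀ z ∈ C, k • z = g • z) ∨
      (∀ z ∈ C, k • z = ι • g • z)) ∨
    ((∀ z ∈ C, k • z = τ • z) ∨ (∀ z ∈ C, k • z = ι • τ • z) ∨ (∀ z ∈ C, k • z = g • τ • z) ∨
      (∀ z ∈ C, k • z = ι • g • τ • z)) := by
  rcases h.refl k with hk | hk
  · exact Or.inl (h.rot k hk)
  · right
    have hτ' : ∀ z ∈ C, τ⁻¹ • g • z = ι • g • τ⁻¹ • z := by
      intro z hz
      have h1 := hτ (τ⁻¹ • z) (h.mem hz _)
      rw [smul_inv_smul] at h1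
      rw [inv_smul_eq_iff, h.clus.comm τ, h1, h.ii]
    have h1 : ∀ z ∈ C, (k * τ⁻¹) • g • z = g • (k * τ⁻¹) • z := by
      intro z hz
      rw [mul_smul, mul_smul, hτ' z hz, h.clus.comm k, hk _ (h.mem hz _), h.ii]
    rcases h.rot _ h1 with h2 | h2 | h2 | h2
    · left
      intro z hz
      have := h2 (τ • z) (h.mem hz _)
      rwa [mul_smul, inv_smul_smul] at this
    · right; left
      intro z hz
      have := h2 (τ • z) (h.mem hz _)
      rwa [mul_smul, inv_smul_smul] at this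
    · right; right; left
      intro z hz
      have := h2 (τ • z) (h.mem hz _)
      rwa [mul_smul, inv_smul_smul] at this
    · right; right; right
      intro z hz
      have := h2 (τ • z) (h.mem hz _)
      rwa [mul_smul, inv_smul_smul] at this

end Cdat

/-- The values of `ν` at the four elements of an orbit, up to sign. -/
structure Val (C : Set Ω) (ν : Ω → ℝ) (g τ : G) (z : Ω) (a b c e : ℝ) : Prop where
  mem : z ∈ C
  ha : ν z = a
  hb : ν (g • z) = b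
  hc : ν (τ • z) = c
  he : ν (g • τ • z) = e

section

variable {ι : G} {C : Set Ω} {ν : Ω → ℝ} {g τ : G}

theorem Val.io (h : Cdat ι C ν g) {z : Ω} {a b c e : ℝ} (hv : Val C ν g τ z a b c e) :
    Val C ν g τ (ι • z) (-a) (-b) (-c) (-e) := by
  refine ⟨h.mem hv.mem ι, ?_, ?_, ?_, ?_⟩
  · rw [h.nu, hv.ha]
  · rw [h.gi, h.nu, hv.hb]
  · rw [h.clus.comm, h.nu, hv.hc]
  · rw [h.clus.comm, h.gi, h.nu, hv.he]

theorem Val.ro (h : Cdat ι C ν g) (hτ : ∀ z ∈ C, τ • g • z = ι • g • τ • z) {z : Ω}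
    {a b c e : ℝ} (hv : Val C ν g τ z a b c e) : Val C ν g τ (g • z) b (-a) (-e) c := by
  refine ⟨h.mem hv.mem g, hv.hb, ?_, ?_, ?_⟩
  · rw [h.nu_sq hv.mem, hv.ha]
  · rw [hτ z hv.mem, h.nu, hv.he]
  · rw [hτ z hv.mem, h.gi, h.sq _ (h.mem hv.mem τ), h.ii, hv.hc]

theorem Val.fix (h : Cdat ι C ν g) {z : Ω} {a b : ℝ} (hz : z ∈ C) (hz' : τ • z = z)
    (ha : ν z = a) (hb : ν (g • z) = b) : Val C ν g τ z a b a b :=
  ⟨hz, ha, hb, by rw [hz', ha], by rw [hz', hb]⟩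

theorem Val.mov (h : Cdat ι C ν g) {z : Ω} {a b : ℝ} (hz : z ∈ C) (hz' : τ • z = g • z)
    (ha : ν z = a) (hb : ν (g • z) = b) : Val C ν g τ z a b b (-a) :=
  ⟨hz, ha, hb, by rw [hz', hb], by rw [hz', h.nu_sq hz, ha]⟩

/-- The relation with one more element. -/
theorem Val.one (h : Cdat ι C ν g) (hτ : ∀ z ∈ C, τ • g • z = ι • g • τ • z) {w u : Ω}
    {a b c e a' b' c' e' : ℝ} (hw : Val C ν g τ w a b c e) (hu : Val C ν g τ u a' b' c' e')
    (h1 : a + a' = 0) (h2 : b + b' = 0) (h3 : c + c' = 0) (h4 : e + e' = 0) (k : G) :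
    ν (k • w) + (({u} : Multiset Ω).map fun y => ν (k • y)).sum = 0 := by
  simp only [Multiset.map_singleton, Multiset.sum_singleton]
  rcases h.all_of_refl hτ k with (hk | hk | hk | hk) | (hk | hk | hk | hk) <;>
    rw [hk w hw.mem, hk u hu.mem] <;>
    simp only [h.nu, hw.ha, hw.hb, hw.hc, hw.he, hu.ha, hu.hb, hu.hc, hu.he] <;> linarith

theorem Val.two (h : Cdat ι C ν g) (hτ : ∀ z ∈ C, τ • g • z = ι • g • τ • z) {w u v : Ω}
    {a b c e a' b' c' e' a'' b'' c'' e'' : ℝ} (hw : Val C ν g τ w a b c e)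
    (hu : Val C ν g τ u a' b' c' e') (hv : Val C ν g τ v a'' b'' c'' e'')
    (h1 : a + a' + a'' = 0) (h2 : b + b' + b'' = 0) (h3 : c + c' + c'' = 0)
    (h4 : e + e' + e'' = 0) (k : G) :
    ν (k • w) + (({u, v} : Multiset Ω).map fun y => ν (k • y)).sum = 0 := by
  simp only [Multiset.insert_eq_cons, Multiset.map_cons, Multiset.map_singleton,
    Multiset.sum_cons, Multiset.sum_singleton]
  rcases h.all_of_refl hτ k with (hk | hk | hk | hk) | (hk | hk | hk | hk) <;>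
    rw [hk w hw.mem, hk u hu.mem, hk v hv.mem] <;>
    simp only [h.nu, hw.ha, hw.hb, hw.hc, hw.he, hu.ha, hu.hb, hu.hc, hu.he, hv.ha, hv.hb, hv.hc,
      hv.he] <;> linarith

theorem Val.three (h : Cdat ι C ν g) (hτ : ∀ z ∈ C, τ • g • z = ι • g • τ • z) {w u v t : Ω}
    {a b c e a' b' c' e' a'' b'' c'' e'' a₃ b₃ c₃ e₃ : ℝ} (hw : Val C ν g τ w a b c e)
    (hu : Val C ν g τ u a' b' c' e') (hv : Val C ν g τ v a'' b'' c'' e'')
    (ht : Val C ν g τ t a₃ b₃ c₃ e₃)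
    (h1 : a + a' + a'' + a₃ = 0) (h2 : b + b' + b'' + b₃ = 0) (h3 : c + c' + c'' + c₃ = 0)
    (h4 : e + e' + e'' + e₃ = 0) (k : G) :
    ν (k • w) + (({u, v, t} : Multiset Ω).map fun y => ν (k • y)).sum = 0 := by
  simp only [Multiset.insert_eq_cons, Multiset.map_cons, Multiset.map_singleton,
    Multiset.sum_cons, Multiset.sum_singleton]
  rcases h.all_of_refl hτ k with (hk | hk | hk | hk) | (hk | hk | hk | hk) <;>
    rw [hk w hw.mem, hk u hu.mem, hk v hv.mem, hk t ht.mem] <;>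
    simp only [h.nu, hw.ha, hw.hb, hw.hc, hw.he, hu.ha, hu.hb, hu.hc, hu.he, hv.ha, hv.hb, hv.hc,
      hv.he, ht.ha, ht.hb, ht.hc, ht.he] <;> linarith

/-- The types of an orbit with respect to a reflection. -/
theorem types (h : Cdat ι C ν g) (hτ : ∀ z ∈ C, τ • g • z = ι • g • τ • z) {z : Ω} (hz : z ∈ C) :
    (∃ w ∈ orbit G z, τ • w = w) ∨ (∃ w ∈ orbit G z, τ • w = g • w) := by
  rcases h.orb z hz (τ • z) (mem_orbit z τ) with h1 | h1 | h1 | h1
  · exact Or.inl ⟨z, mem_orbit_self z, h1⟩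
  · left
    refine ⟨g • z, mem_orbit z g, ?_⟩
    rw [hτ z hz, h1, h.gi, h.ii]
  · exact Or.inr ⟨z, mem_orbit_self z, h1⟩
  · right
    refine ⟨g • z, mem_orbit z g, ?_⟩
    rw [hτ z hz, h1, h.gi, h.ii]

theorem mem_C_of_orbit (h : Cdat ι C ν g) {z w : Ω} (hz : z ∈ C) (hw : w ∈ orbit G z) : w ∈ C := by
  obtain ⟨k, rfl⟩ := hw
  exact h.mem hz k

theorem orbit_iota {z w : Ω} (hw : w ∈ orbit G z) (k : G) : k • w ∈ orbit G z := by
  exact mem_orbit_smul k hw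

end

end Pool.Agent.Lib.MP_950c68_ag.Surf
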