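import Mathlib
import Pool.Agent.Lib.MP_950c68_ag.Surf.Cas

/-!
# The relations of a family of orbits with four elements: the cases
-/

namespace Pool.Agent.Lib.MP_950c68_ag.Surf

open MulAction Pool.Agent.Lib.MP_950c68_ag.Orb

variable {G Ω : Type*} [Group G] [MulAction G Ω]

section

variable {ι : G} {C : Set Ω} {ν : Ω → ℝ} {g τ : G}

theorem eq_zero_one (h : Cdat ι C ν g) {x : Ω} (hx : x ∈ C) {d : Ω → ℤ}
    (hanti : ∀ y, d (ι • y) = - d y) (hsupp : ∀ y, y ∉ orbit G x → d y = 0) (h1 : d x = 0)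
    (h2 : d (g • x) = 0) : d = 0 := by
  ext y
  by_cases hy : y ∈ orbit G x
  · rcases h.orb x hx y hy with rfl | rfl | rfl | rfl
    · exact h1
    · rw [hanti, h1]; rfl
    · exact h2
    · rw [hanti, h2]; rfl
  · exact hsupp y hy

theorem eq_zero_two (h : Cdat ι C ν g) {x x' : Ω} (hx : x ∈ C) (hx' : x' ∈ C) {d : Ω → ℤ}
    (hanti : ∀ y, d (ι • y) = - d y)
    (hsupp : ∀ y, y ∉ orbit G x → y ∉ orbit G x' → d y = 0) (h1 : d x = 0)
    (h2 : d (g • x) = 0) (h3 : d x' = 0) (h4 : d (g • x') = 0) : d = 0 := by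
  ext y
  by_cases hy : y ∈ orbit G x
  · rcases h.orb x hx y hy with rfl | rfl | rfl | rfl
    · exact h1
    · rw [hanti, h1]; rfl
    · exact h2
    · rw [hanti, h2]; rfl
  by_cases hy' : y ∈ orbit G x'
  · rcases h.orb x' hx' y hy' with rfl | rfl | rfl | rfl
    · exact h3
    · rw [hanti, h3]; rfl
    · exact h4
    · rw [hanti, h4]; rfl
  · exact hsupp y hy hy'

/-- Normalisation of the sign. -/
theorem exists_pos (h : Cdat ι C ν g) {z : Ω} (hz : ν z = 1 / 2 ∨ ν z = -(1 / 2))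
    (P : Ω → Prop) (hP : P z) (hPι : P (ι • z)) :
    ∃ w ∈ orbit G z, P w ∧ ν w = 1 / 2 := by
  rcases hz with hz | hz
  · exact ⟨z, mem_orbit_self z, hP, hz⟩
  · exact ⟨ι • z, mem_orbit z ι, hPι, by rw [h.nu, hz, neg_neg]⟩

variable [Fintype Ω]

/-- Cyclic groups of order four. -/
theorem case_cyclic (h : Cdat ι C ν g) {y₀ : Ω} (hy₀ : y₀ ∈ C)
    (hc : ∀ k : G, ∀ z ∈ C, k • g • z = g • k • z)
    (hval : ∀ z ∈ C, ν z = 1 / 2 ∨ ν z = -(1 / 2))
    {d : Ω → ℤ} (hanti : ∀ y, d (ι • y) = - d y) (hsupp : ∀ y, y ∉ C → d y = 0)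
    (hrel : ∀ k : G, ∑ y, (d y : ℝ) * ν (k • y) = 0) : d ∈ RelSub ι ν C := by
  have hnorm : ∀ z ∈ C, ∃ w ∈ orbit G z, ν w = 1 / 2 ∧ ν (g • w) = 1 / 2 := by
    intro z hz
    rcases hval z hz with h1 | h1 <;> rcases hval _ (h.mem hz g) with h2 | h2
    · exact ⟨z, mem_orbit_self z, h1, h2⟩
    · refine ⟨ι • g • z, mem_orbit_smul ι (mem_orbit z g), ?_, ?_⟩
      · rw [h.nu, h2, neg_neg]
      · rw [h.gi, h.nu, h.nu_sq hz, h1, neg_neg]
    · refine ⟨g • z, mem_orbit z g, h2, ?_⟩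
      rw [h.nu_sq hz, h1, neg_neg]
    · refine ⟨ι • z, mem_orbit z ι, ?_, ?_⟩
      · rw [h.nu, h1, neg_neg]
      · rw [h.gi, h.nu, h2, neg_neg]
  obtain ⟨x, hx, hx1, hx2⟩ := hnorm y₀ hy₀
  have hxC : x ∈ C := mem_C_of_orbit h hy₀ hx
  refine h.clus.mem_of_move h.nu (B := orbit G x) (fun z hz => mem_C_of_orbit h hxC hz)
    (fun y hy k => mem_orbit_smul k hy) ?_ ?_ hanti hsupp hrel
  · intro z hz _
    obtain ⟨w, hw, hw1, hw2⟩ := hnorm z hz
    have hwC := mem_C_of_orbit h hz hw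
    refine ⟨w, hw, {ι • x}, by simp, ?_, ?_⟩
    · intro y hy
      rw [Multiset.mem_singleton] at hy
      rw [hy]
      exact mem_orbit x ι
    · intro k
      simp only [Multiset.map_singleton, Multiset.sum_singleton]
      rw [h.clus.comm, h.nu]
      rcases h.rot k (hc k) with h1 | h1 | h1 | h1 <;> rw [h1 w hwC, h1 x hxC]
      · rw [hw1, hx1]; ring
      · rw [h.nu, h.nu, hw1, hx1]; ring
      · rw [hw2, hx2]; ring
      · rw [h.nu, h.nu, hw2, hx2]; ring
  · intro d hd hds hdr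
    have e1 := hdr 1
    have e2 := hdr g
    rw [sum_one_orbit h.clus.comm h.clus.invol h.clus.ne h.nu (h.sq x hxC) (h.orb x hxC) hd hds]
      at e1 e2
    rw [one_smul, one_smul, hx1, hx2] at e1
    rw [h.nu_sq hxC, hx1, hx2] at e2
    have e3 : (d x : ℝ) = 0 := by linarith
    have e4 : (d (g • x) : ℝ) = 0 := by linarith
    exact eq_zero_one h hxC hd hds (by exact_mod_cast e3) (by exact_mod_cast e4)

/-- The decomposition group acts by a reflection. -/
theorem case_dec (h : Cdat ι C ν g) {y₀ : Ω} (hy₀ : y₀ ∈ C)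
    (hτ : ∀ z ∈ C, τ • g • z = ι • g • τ • z) (hτν : ∀ y, ν (τ • y) = ν y)
    (hval : ∀ z ∈ C, ν z = 0 ∨ ν z = 1 / 2 ∨ ν z = -(1 / 2))
    {d : Ω → ℤ} (hanti : ∀ y, d (ι • y) = - d y) (hsupp : ∀ y, y ∉ C → d y = 0)
    (hrel : ∀ k : G, ∑ y, (d y : ℝ) * ν (k • y) = 0) : d ∈ RelSub ι ν C := by
  -- the values at fixed points
  have hfix : ∀ z ∈ C, τ • z = z → ν (g • z) = 0 ∧ (ν z = 1 / 2 ∨ ν z = -(1 / 2)) := by
    intro z hz hz'
    have h1 : ν (g • z) = 0 := by
      have h2 := hτν (g • z)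
      rw [hτ z hz, hz', h.nu] at h2
      linarith
    refine ⟨h1, ?_⟩
    rcases hval z hz with h3 | h3
    · exact absurd ⟨h3, h1⟩ (h.ns z hz)
    · exact h3
  have hmov : ∀ z ∈ C, τ • z = g • z → ν (g • z) = ν z ∧ (ν z = 1 / 2 ∨ ν z = -(1 / 2)) := by
    intro z hz hz'
    have h1 : ν (g • z) = ν z := by rw [← hz', hτν]
    refine ⟨h1, ?_⟩
    rcases hval z hz with h3 | h3
    · exact absurd ⟨h3, by rw [h1, h3]⟩ (h.ns z hz)
    · exact h3
  have hnfix : ∀ z ∈ C, (∃ w ∈ orbit G z, τ • w = w) →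
      ∃ w ∈ orbit G z, Val C ν g τ w (1 / 2) 0 (1 / 2) 0 := by
    rintro z hz ⟨w, hw, hw'⟩
    have hwC := mem_C_of_orbit h hz hw
    obtain ⟨h1, h2⟩ := hfix w hwC hw'
    rcases h2 with h2 | h2
    · exact ⟨w, hw, Val.fix h hwC hw' h2 h1⟩
    · refine ⟨ι • w, mem_orbit_smul ι hw, ?_⟩
      have h3 := (Val.fix h hwC hw' h2 h1).io h
      simpa using h3
  have hnmov : ∀ z ∈ C, (∃ w ∈ orbit G z, τ • w = g • w) →
      ∃ w ∈ orbit G z, Val C ν g τ w (1 / 2) (1 / 2) (1 / 2) (-(1 / 2)) := by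
    rintro z hz ⟨w, hw, hw'⟩
    have hwC := mem_C_of_orbit h hz hw
    obtain ⟨h1, h2⟩ := hmov w hwC hw'
    rcases h2 with h2 | h2
    · exact ⟨w, hw, Val.mov h hwC hw' h2 (by rw [h1, h2])⟩
    · refine ⟨ι • w, mem_orbit_smul ι hw, ?_⟩
      have h3 := (Val.mov h hwC hw' h2 (by rw [h1, h2])).io h
      simpa using h3
  by_cases hex : ∃ z ∈ C, ∃ w ∈ orbit G z, τ • w = w
  · obtain ⟨z₀, hz₀, hz₀'⟩ := hex
    obtain ⟨x, hx, hxv⟩ := hnfix z₀ hz₀ hz₀'
    have hxC : x ∈ C := hxv.mem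
    refine h.clus.mem_of_move h.nu (B := orbit G x) (fun z hz => mem_C_of_orbit h hxC hz)
      (fun y hy k => mem_orbit_smul k hy) ?_ ?_ hanti hsupp hrel
    · intro z hz _
      rcases types h hτ hz with h1 | h1
      · obtain ⟨w, hw, hwv⟩ := hnfix z hz h1
        refine ⟨w, hw, {ι • x}, by simp, ?_, ?_⟩
        · intro y hy
          rw [Multiset.mem_singleton] at hy
          rw [hy]
          exact mem_orbit x ι
        · exact hwv.one h hτ (hxv.io h) (by ring) (by ring) (by ring) (by ring)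
      · obtain ⟨w, hw, hwv⟩ := hnmov z hz h1
        refine ⟨w, hw, {ι • x, g • x}, by simp, ?_, ?_⟩
        · intro y hy
          simp only [Multiset.insert_eq_cons, Multiset.mem_cons, Multiset.mem_singleton] at hy
          rcases hy with rfl | rfl
          · exact mem_orbit x ι
          · exact mem_orbit x g
        · exact hwv.two h hτ (hxv.io h) (hxv.ro h hτ) (by ring) (by ring) (by ring) (by ring)
    · intro d hd hds hdr
      have e1 := hdr 1
      have e2 := hdr g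
      rw [sum_one_orbit h.clus.comm h.clus.invol h.clus.ne h.nu (h.sq x hxC) (h.orb x hxC) hd hds]
        at e1 e2
      rw [one_smul, one_smul, hxv.ha, hxv.hb] at e1
      rw [h.nu_sq hxC, hxv.ha, hxv.hb] at e2
      have e3 : (d x : ℝ) = 0 := by linarith
      have e4 : (d (g • x) : ℝ) = 0 := by linarith
      exact eq_zero_one h hxC hd hds (by exact_mod_cast e3) (by exact_mod_cast e4)
  · have hall : ∀ z ∈ C, ∃ w ∈ orbit G z, τ • w = g • w := by
      intro z hz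
      rcases types h hτ hz with h1 | h1
      · exact absurd ⟨z, hz, h1⟩ hex
      · exact h1
    obtain ⟨x, hx, hxv⟩ := hnmov y₀ hy₀ (hall y₀ hy₀)
    have hxC : x ∈ C := hxv.mem
    refine h.clus.mem_of_move h.nu (B := orbit G x) (fun z hz => mem_C_of_orbit h hxC hz)
      (fun y hy k => mem_orbit_smul k hy) ?_ ?_ hanti hsupp hrel
    · intro z hz _
      obtain ⟨w, hw, hwv⟩ := hnmov z hz (hall z hz)
      refine ⟨w, hw, {ι • x}, by simp, ?_, ?_⟩
      · intro y hy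
        rw [Multiset.mem_singleton] at hy
        rw [hy]
        exact mem_orbit x ι
      · exact hwv.one h hτ (hxv.io h) (by ring) (by ring) (by ring) (by ring)
    · intro d hd hds hdr
      have e1 := hdr 1
      have e2 := hdr g
      rw [sum_one_orbit h.clus.comm h.clus.invol h.clus.ne h.nu (h.sq x hxC) (h.orb x hxC) hd hds]
        at e1 e2
      rw [one_smul, one_smul, hxv.ha, hxv.hb] at e1
      rw [h.nu_sq hxC, hxv.ha, hxv.hb] at e2
      have e3 : (d x : ℝ) = 0 := by linarith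
      have e4 : (d (g • x) : ℝ) = 0 := by linarith
      exact eq_zero_one h hxC hd hds (by exact_mod_cast e3) (by exact_mod_cast e4)

end

end Pool.Agent.Lib.MP_950c68_ag.Surf
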