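import Mathlib
import Pool.Agent.Lib.MP_950c68_ag.Surf.CasA

/-!
# The relations of a family of orbits with four elements: split primes
-/

namespace Pool.Agent.Lib.MP_950c68_ag.Surf

open MulAction Pool.Agent.Lib.MP_950c68_ag.Orb

variable {G Ω : Type*} [Group G] [MulAction G Ω]

section

variable {ι : G} {C : Set Ω} {ν : Ω → ℝ} {g τ : G}

theorem exists_fix (h : Cdat ι C ν g) (hval : ∀ z ∈ C, ν z = 1 / 2 ∨ ν z = -(1 / 2)) {z : Ω}
    (hz : z ∈ C) (hw : ∃ w ∈ orbit G z, τ • w = w) :
    ∃ w ∈ orbit G z, ∃ s : ℝ, (s = 1 ∨ s = -1) ∧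
      Val C ν g τ w (1 / 2) (s / 2) (1 / 2) (s / 2) := by
  obtain ⟨w, hw, hw'⟩ := hw
  have hwC := mem_C_of_orbit h hz hw
  obtain ⟨v, hv, hv', hv1⟩ := exists_pos h (hval w hwC) (fun y => τ • y = y) hw'
    (by rw [h.clus.comm, hw'])
  have hvz : v ∈ orbit G z := by
    rw [← orbit_eq_iff.mpr hw]
    exact hv
  have hvC := mem_C_of_orbit h hz hvz
  rcases hval _ (h.mem hvC g) with h1 | h1
  · refine ⟨v, hvz, 1, Or.inl rfl, Val.fix h hvC hv' hv1 (by rw [h1])⟩
  · refine ⟨v, hvz, -1, Or.inr rfl, Val.fix h hvC hv' hv1 (by rw [h1]; ring)⟩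

theorem exists_mov (h : Cdat ι C ν g) (hval : ∀ z ∈ C, ν z = 1 / 2 ∨ ν z = -(1 / 2)) {z : Ω}
    (hz : z ∈ C) (hw : ∃ w ∈ orbit G z, τ • w = g • w) :
    ∃ w ∈ orbit G z, ∃ s : ℝ, (s = 1 ∨ s = -1) ∧
      Val C ν g τ w (1 / 2) (s / 2) (s / 2) (-(1 / 2)) := by
  obtain ⟨w, hw, hw'⟩ := hw
  have hwC := mem_C_of_orbit h hz hw
  obtain ⟨v, hv, hv', hv1⟩ := exists_pos h (hval w hwC) (fun y => τ • y = g • y) hw'
    (by rw [h.clus.comm, hw', h.gi])
  have hvz : v ∈ orbit G z := by
    rw [← orbit_eq_iff.mpr hw]
    exact hv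
  have hvC := mem_C_of_orbit h hz hvz
  rcases hval _ (h.mem hvC g) with h1 | h1
  · refine ⟨v, hvz, 1, Or.inl rfl, Val.mov h hvC hv' hv1 (by rw [h1])⟩
  · refine ⟨v, hvz, -1, Or.inr rfl, Val.mov h hvC hv' hv1 (by rw [h1]; ring)⟩

variable [Fintype Ω]

/-- One type of orbits. -/
theorem case_one_type (h : Cdat ι C ν g) {y₀ : Ω} (hy₀ : y₀ ∈ C)
    (hτ : ∀ z ∈ C, τ • g • z = ι • g • τ • z)
    (hval : ∀ z ∈ C, ν z = 1 / 2 ∨ ν z = -(1 / 2))
    (hall : ∀ z ∈ C, ∃ w ∈ orbit G z, τ • w = w)
    {d : Ω → ℤ} (hanti : ∀ y, d (ι • y) = - d y) (hsupp : ∀ y, y ∉ C → d y = 0)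
    (hrel : ∀ k : G, ∑ y, (d y : ℝ) * ν (k • y) = 0) : d ∈ RelSub ι ν C := by
  obtain ⟨x, hx, s, hs, hxv⟩ := exists_fix h hval hy₀ (hall y₀ hy₀)
  have hxC : x ∈ C := hxv.mem
  by_cases hex : ∃ z ∈ C, ∃ t : ℝ, t = - s ∧ Val C ν g τ z (1 / 2) (t / 2) (1 / 2) (t / 2)
  · obtain ⟨x', hx'C, t, rfl, hxv'⟩ := hex
    refine h.clus.mem_of_move h.nu (B := orbit G x ∪ orbit G x')
      (fun z hz => by
        rcases hz with hz | hz
        · exact mem_C_of_orbit h hxC hz
        · exact mem_C_of_orbit h hx'C hz)
      (fun y hy k => by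
        rcases hy with hy | hy
        · exact Or.inl (mem_orbit_smul k hy)
        · exact Or.inr (mem_orbit_smul k hy)) ?_ ?_ hanti hsupp hrel
    · intro z hz _
      obtain ⟨w, hw, t, ht, hwv⟩ := exists_fix h hval hz (hall z hz)
      have hts : t = s ∨ t = -s := by
        rcases hs with rfl | rfl <;> rcases ht with rfl | rfl <;> norm_num
      rcases hts with rfl | rfl
      · refine ⟨w, hw, {ι • x}, by simp, ?_, ?_⟩
        · intro y hy
          rw [Multiset.mem_singleton] at hy
          rw [hy]
          exact Or.inl (mem_orbit x ι)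
        · exact hwv.one h hτ (hxv.io h) (by ring) (by ring) (by ring) (by ring)
      · refine ⟨w, hw, {ι • x'}, by simp, ?_, ?_⟩
        · intro y hy
          rw [Multiset.mem_singleton] at hy
          rw [hy]
          exact Or.inr (mem_orbit x' ι)
        · exact hwv.one h hτ (hxv'.io h) (by ring) (by ring) (by ring) (by ring)
    · intro d hd hds hdr
      have hne : x' ∉ orbit G x := by
        intro hmem
        rcases h.orb x hxC x' hmem with h1 | h1 | h1 | h1 <;> rw [h1] at hxv'
        · have e := hxv.hb.symm.trans hxv'.hb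
          rcases hs with rfl | rfl <;> norm_num at e
        · have e := (hxv.io h).ha.symm.trans hxv'.ha
          norm_num at e
        · have e := (hxv.ro h hτ).ha.symm.trans hxv'.ha
          have e' := (hxv.ro h hτ).hc.symm.trans hxv'.hc
          linarith
        · have e := ((hxv.ro h hτ).io h).ha.symm.trans hxv'.ha
          have e' := ((hxv.ro h hτ).io h).hc.symm.trans hxv'.hc
          linarith
      have hds' : ∀ z, z ∉ orbit G x → z ∉ orbit G x' → d z = 0 := by
        intro z h1 h2
        apply hds
        rintro (h3 | h3)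
        · exact h1 h3
        · exact h2 h3
      have e1 := hdr 1
      have e2 := hdr g
      have e3 := hdr τ
      have e4 := hdr (g * τ)
      rw [sum_two_orbits h.clus.comm h.clus.invol h.clus.ne h.nu (h.sq x hxC) (h.orb x hxC)
        (h.sq x' hx'C) (h.orb x' hx'C) hne hd hds'] at e1 e2 e3 e4
      rw [one_smul, one_smul, one_smul, one_smul, hxv.ha, hxv.hb, hxv'.ha, hxv'.hb] at e1
      rw [h.nu_sq hxC, h.nu_sq hx'C, hxv.ha, hxv.hb, hxv'.ha, hxv'.hb] at e2
      rw [hxv.hc, (hxv.ro h hτ).hc, hxv'.hc, (hxv'.ro h hτ).hc] at e3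
      rw [mul_smul, mul_smul, mul_smul, mul_smul, hxv.he, (hxv.ro h hτ).he, hxv'.he,
        (hxv'.ro h hτ).he] at e4
      have f1 : (d x : ℝ) = 0 := by rcases hs with rfl | rfl <;> linarith
      have f2 : (d (g • x) : ℝ) = 0 := by rcases hs with rfl | rfl <;> linarith
      have f3 : (d x' : ℝ) = 0 := by rcases hs with rfl | rfl <;> linarith
      have f4 : (d (g • x') : ℝ) = 0 := by rcases hs with rfl | rfl <;> linarith
      exact eq_zero_two h hxC hx'C hd hds' (by exact_mod_cast f1) (by exact_mod_cast f2)
        (by exact_mod_cast f3) (by exact_mod_cast f4)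
  · refine h.clus.mem_of_move h.nu (B := orbit G x) (fun z hz => mem_C_of_orbit h hxC hz)
      (fun y hy k => mem_orbit_smul k hy) ?_ ?_ hanti hsupp hrel
    · intro z hz _
      obtain ⟨w, hw, t, ht, hwv⟩ := exists_fix h hval hz (hall z hz)
      have hts : t = s := by
        by_contra hne
        apply hex
        refine ⟨w, hwv.mem, t, ?_, hwv⟩
        rcases hs with rfl | rfl <;> rcases ht with rfl | rfl
        · exact absurd rfl hne
        · rfl
        · norm_num
        · exact absurd rfl hne
      rw [hts] at hwv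
      refine ⟨w, hw, {ι • x}, by simp, ?_, ?_⟩
      · intro y hy
        rw [Multiset.mem_singleton] at hy
        rw [hy]
        exact mem_orbit x ι
      · exact hwv.one h hτ (hxv.io h) (by ring) (by ring) (by ring) (by ring)
    · intro d hd hds hdr
      have e1 := hdr 1
      have e2 := hdr g
      rw [sum_one_orbit h.clus.comm h.clus.invol h.clus.ne h.nu (h.sq x hxC) (h.orb x hxC) hd hds]
        at e1 e2
      rw [one_smul, one_smul, hxv.ha, hxv.hb] at e1
      rw [h.nu_sq hxC, hxv.ha, hxv.hb] at e2
      have f1 : (d x : ℝ) = 0 := by rcases hs with rfl | rfl <;> linarith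
      have f2 : (d (g • x) : ℝ) = 0 := by rcases hs with rfl | rfl <;> linarith
      exact eq_zero_one h hxC hd hds (by exact_mod_cast f1) (by exact_mod_cast f2)

/-- Two types of orbits. -/
theorem case_two_types (h : Cdat ι C ν g) (hτ : ∀ z ∈ C, τ • g • z = ι • g • τ • z)
    (hval : ∀ z ∈ C, ν z = 1 / 2 ∨ ν z = -(1 / 2)) {y₀ y₁ : Ω} (hy₀ : y₀ ∈ C) (hy₁ : y₁ ∈ C)
    (h0 : ∃ w ∈ orbit G y₀, τ • w = w) (h1 : ∃ w ∈ orbit G y₁, τ • w = g • w)
    {d : Ω → ℤ} (hanti : ∀ y, d (ι • y) = - d y) (hsupp : ∀ y, y ∉ C → d y = 0)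
    (hrel : ∀ k : G, ∑ y, (d y : ℝ) * ν (k • y) = 0) : d ∈ RelSub ι ν C := by
  obtain ⟨x, hx, s, hs, hxv⟩ := exists_fix h hval hy₀ h0
  have hxC : x ∈ C := hxv.mem
  obtain ⟨x', hx', t, ht, hxv'⟩ := exists_mov h hval hy₁ h1
  have hx'C : x' ∈ C := hxv'.mem
  have hgv := hxv.ro h hτ
  have hgv' := hxv'.ro h hτ
  refine h.clus.mem_of_move h.nu (B := orbit G x ∪ orbit G x')
    (fun z hz => by
      rcases hz with hz | hz
      · exact mem_C_of_orbit h hxC hz
      · exact mem_C_of_orbit h hx'C hz)
    (fun y hy k => by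
      rcases hy with hy | hy
      · exact Or.inl (mem_orbit_smul k hy)
      · exact Or.inr (mem_orbit_smul k hy)) ?_ ?_ hanti hsupp hrel
  · have hm : ∀ y ∈ orbit G x ∪ orbit G x', ι • y ∈ orbit G x ∪ orbit G x' := by
      intro y hy
      rcases hy with hy | hy
      · exact Or.inl (mem_orbit_smul ι hy)
      · exact Or.inr (mem_orbit_smul ι hy)
    have m1 : x ∈ orbit G x ∪ orbit G x' := Or.inl (mem_orbit_self x)
    have m2 : g • x ∈ orbit G x ∪ orbit G x' := Or.inl (mem_orbit x g)
    have m3 : x' ∈ orbit G x ∪ orbit G x' := Or.inr (mem_orbit_self x')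
    have m4 : g • x' ∈ orbit G x ∪ orbit G x' := Or.inr (mem_orbit x' g)
    intro z hz _
    rcases types h hτ hz with h2 | h2
    · obtain ⟨w, hw, u, hu, hwv⟩ := exists_fix h hval hz h2
      by_cases hus : u = s
      · rw [hus] at hwv
        refine ⟨w, hw, {ι • x}, by simp, ?_, ?_⟩
        · intro y hy
          rw [Multiset.mem_singleton] at hy
          rw [hy]
          exact hm _ m1
        · exact hwv.one h hτ (hxv.io h) (by ring) (by ring) (by ring) (by ring)
      · have hus' : u = -s := by
          rcases hs with rfl | rfl <;> rcases hu with rfl | rfl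
          · exact absurd rfl hus
          · rfl
          · norm_num
          · exact absurd rfl hus
        rw [hus'] at hwv
        rcases ht with rfl | rfl
        · refine ⟨w, hw, {ι • x', ι • g • x', x}, by simp, ?_, ?_⟩
          · intro y hy
            simp only [Multiset.insert_eq_cons, Multiset.mem_cons, Multiset.mem_singleton] at hy
            rcases hy with rfl | rfl | rfl
            · exact hm _ m3
            · exact hm _ m4
            · exact m1
          · exact hwv.three h hτ (hxv'.io h) (hgv'.io h) hxv (by ring) (by ring) (by ring)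
              (by ring)
        · rcases hs with rfl | rfl
          · refine ⟨w, hw, {ι • x, ι • x', ι • g • x'}, by simp, ?_, ?_⟩
            · intro y hy
              simp only [Multiset.insert_eq_cons, Multiset.mem_cons, Multiset.mem_singleton] at hy
              rcases hy with rfl | rfl | rfl
              · exact hm _ m1
              · exact hm _ m3
              · exact hm _ m4
            · exact hwv.three h hτ (hxv.io h) (hxv'.io h) (hgv'.io h) (by norm_num) (by norm_num)
                (by norm_num) (by norm_num)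
          · refine ⟨w, hw, {ι • x, x', g • x'}, by simp, ?_, ?_⟩
            · intro y hy
              simp only [Multiset.insert_eq_cons, Multiset.mem_cons, Multiset.mem_singleton] at hy
              rcases hy with rfl | rfl | rfl
              · exact hm _ m1
              · exact m3
              · exact m4
            · exact hwv.three h hτ (hxv.io h) hxv' hgv' (by norm_num) (by norm_num)
                (by norm_num) (by norm_num)
    · obtain ⟨w, hw, u, hu, hwv⟩ := exists_mov h hval hz h2
      by_cases hut : u = t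
      · rw [hut] at hwv
        refine ⟨w, hw, {ι • x'}, by simp, ?_, ?_⟩
        · intro y hy
          rw [Multiset.mem_singleton] at hy
          rw [hy]
          exact hm _ m3
        · exact hwv.one h hτ (hxv'.io h) (by ring) (by ring) (by ring) (by ring)
      · have hut' : u = -t := by
          rcases ht with rfl | rfl <;> rcases hu with rfl | rfl
          · exact absurd rfl hut
          · rfl
          · norm_num
          · exact absurd rfl hut
        rw [hut'] at hwv
        rcases hs with rfl | rfl
        · rcases ht with rfl | rfl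
          · refine ⟨w, hw, {ι • x', x, ι • g • x}, by simp, ?_, ?_⟩
            · intro y hy
              simp only [Multiset.insert_eq_cons, Multiset.mem_cons, Multiset.mem_singleton] at hy
              rcases hy with rfl | rfl | rfl
              · exact hm _ m3
              · exact m1
              · exact hm _ m2
            · exact hwv.three h hτ (hxv'.io h) hxv (hgv.io h) (by norm_num) (by norm_num)
                (by norm_num) (by norm_num)
          · refine ⟨w, hw, {ι • x', ι • x, g • x}, by simp, ?_, ?_⟩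
            · intro y hy
              simp only [Multiset.insert_eq_cons, Multiset.mem_cons, Multiset.mem_singleton] at hy
              rcases hy with rfl | rfl | rfl
              · exact hm _ m3
              · exact hm _ m1
              · exact m2
            · exact hwv.three h hτ (hxv'.io h) (hxv.io h) hgv (by norm_num) (by norm_num)
                (by norm_num) (by norm_num)
        · refine ⟨w, hw, {x', ι • x, g • x}, by simp, ?_, ?_⟩
          · intro y hy
            simp only [Multiset.insert_eq_cons, Multiset.mem_cons, Multiset.mem_singleton] at hy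
            rcases hy with rfl | rfl | rfl
            · exact m3
            · exact hm _ m1
            · exact m2
          · exact hwv.three h hτ hxv' (hxv.io h) hgv (by ring) (by ring) (by ring) (by ring)
  · intro d hd hds hdr
    have hne : x' ∉ orbit G x := by
      intro hmem
      rcases h.orb x hxC x' hmem with h1 | h1 | h1 | h1 <;> rw [h1] at hxv'
      · have e := hxv.hb.symm.trans hxv'.hb
        have e' := hxv.hc.symm.trans hxv'.hc
        have e'' := hxv.he.symm.trans hxv'.he
        linarith
      · have e := (hxv.io h).ha.symm.trans hxv'.ha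
        norm_num at e
      · have e := hgv.he.symm.trans hxv'.he
        norm_num at e
      · have e := (hgv.io h).ha.symm.trans hxv'.ha
        have e' := (hgv.io h).hb.symm.trans hxv'.hb
        have e'' := (hgv.io h).hc.symm.trans hxv'.hc
        linarith
    have hds' : ∀ z, z ∉ orbit G x → z ∉ orbit G x' → d z = 0 := by
      intro z h1 h2
      apply hds
      rintro (h3 | h3)
      · exact h1 h3
      · exact h2 h3
    have e1 := hdr 1
    have e2 := hdr g
    have e3 := hdr τ
    have e4 := hdr (g * τ)
    rw [sum_two_orbits h.clus.comm h.clus.invol h.clus.ne h.nu (h.sq x hxC) (h.orb x hxC)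
      (h.sq x' hx'C) (h.orb x' hx'C) hne hd hds'] at e1 e2 e3 e4
    rw [one_smul, one_smul, one_smul, one_smul, hxv.ha, hxv.hb, hxv'.ha, hxv'.hb] at e1
    rw [h.nu_sq hxC, h.nu_sq hx'C, hxv.ha, hxv.hb, hxv'.ha, hxv'.hb] at e2
    rw [hxv.hc, hgv.hc, hxv'.hc, hgv'.hc] at e3
    rw [mul_smul, mul_smul, mul_smul, mul_smul, hxv.he, hgv.he, hxv'.he, hgv'.he] at e4
    have f1 : (d x : ℝ) = 0 := by rcases hs with rfl | rfl <;> rcases ht with rfl | rfl <;> linarith
    have f2 : (d (g • x) : ℝ) = 0 := by
      rcases hs with rfl | rfl <;> rcases ht with rfl | rfl <;> linarith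
    have f3 : (d x' : ℝ) = 0 := by rcases hs with rfl | rfl <;> rcases ht with rfl | rfl <;> linarith
    have f4 : (d (g • x') : ℝ) = 0 := by
      rcases hs with rfl | rfl <;> rcases ht with rfl | rfl <;> linarith
    exact eq_zero_two h hxC hx'C hd hds' (by exact_mod_cast f1) (by exact_mod_cast f2)
      (by exact_mod_cast f3) (by exact_mod_cast f4)

end

end Pool.Agent.Lib.MP_950c68_ag.Surf
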