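import Mathlib
import Pool.Agent.Lib.MP_950c68_ag.Surf.CasB

/-!
# The relations of a family of orbits with four elements: conclusion
-/

namespace Pool.Agent.Lib.MP_950c68_ag.Surf

open MulAction Pool.Agent.Lib.MP_950c68_ag.Orb

variable {G Ω : Type*} [Group G] [MulAction G Ω]

theorem half_of_int {v : ℝ} {m : ℤ} (h : v - 1 / 2 = m) (habs : |v| ≤ 1 / 2) :
    v = 1 / 2 ∨ v = -(1 / 2) := by
  obtain ⟨h1, h2⟩ := abs_le.mp habs
  have h3 : (m : ℝ) ≤ 0 := by linarith
  have h4 : (-1 : ℝ) ≤ m := by linarith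
  have h3' : m ≤ 0 := by exact_mod_cast h3
  have h4' : -1 ≤ m := by exact_mod_cast h4
  have h5 : m = 0 ∨ m = -1 := by omega
  rcases h5 with rfl | rfl
  · left; push_cast at h; linarith
  · right; push_cast at h; linarith

theorem half_of_int' {v : ℝ} {m : ℤ} (h : 2 * (v - 1 / 2) = m) (habs : |v| ≤ 1 / 2) :
    v = 0 ∨ v = 1 / 2 ∨ v = -(1 / 2) := by
  obtain ⟨h1, h2⟩ := abs_le.mp habs
  have h3 : (m : ℝ) ≤ 0 := by linarith
  have h4 : (-2 : ℝ) ≤ m := by linarith
  have h3' : m ≤ 0 := by exact_mod_cast h3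
  have h4' : -2 ≤ m := by exact_mod_cast h4
  have h5 : m = 0 ∨ m = -1 ∨ m = -2 := by omega
  rcases h5 with rfl | rfl | rfl
  · right; left; push_cast at h; linarith
  · left; push_cast at h; linarith
  · right; right; push_cast at h; linarith

/-- The relations of the family are generated by relations with at most four terms. -/
theorem Clus.generated [Fintype Ω] {ι : G} {C : Set Ω} (hC : Clus ι C) {ν : Ω → ℝ}
    {D : Subgroup G} (hν : ∀ y, ν (ι • y) = - ν y) (hD : ∀ k ∈ D, ∀ y, ν (k • y) = ν y)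
    (hHT : ∀ y ∈ C, ∃ m : ℤ, (Nat.card (orbit D y) : ℝ) * (ν y - 1 / 2) = m)
    (habs : ∀ y, |ν y| ≤ 1 / 2) (hns : ∀ y ∈ C, ∃ k : G, ν (k • y) ≠ 0)
    {d : Ω → ℤ} (hanti : ∀ y, d (ι • y) = - d y) (hsupp : ∀ y, y ∉ C → d y = 0)
    (hrel : ∀ k : G, ∑ y, (d y : ℝ) * ν (k • y) = 0) : d ∈ RelSub ι ν C := by
  classical
  by_cases hne : C.Nonempty
  swap
  · have h0 : d = 0 := by
      ext y
      exact hsupp y fun hy => hne ⟨y, hy⟩
    rw [h0]
    exact AddSubgroup.zero_mem _
  obtain ⟨g, hsq, horb, hrefl, hrot⟩ := hC.exists_rot hne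
  obtain ⟨y₀, hy₀⟩ := hne
  have h : Cdat ι C ν g := by
    refine ⟨hC, hν, hsq, horb, hrefl, hrot, ?_⟩
    rintro z hz ⟨h1, h2⟩
    obtain ⟨k, hk⟩ := hns z hz
    rcases horb z hz (k • z) (mem_orbit z k) with h3 | h3 | h3 | h3 <;> rw [h3] at hk
    · exact hk h1
    · rw [hν, h1, neg_zero] at hk; exact hk rfl
    · exact hk h2
    · rw [hν, h2, neg_zero] at hk; exact hk rfl
  -- commuting elements of `D` act trivially
  have hDc : ∀ k ∈ D, (∀ z ∈ C, k • g • z = g • k • z) → ∀ z ∈ C, k • z = z := by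
    intro k hk hc
    rcases hrot k hc with h1 | h1 | h1 | h1
    · exact h1
    · exfalso
      have e1 := hD k hk y₀
      have e2 := hD k hk (g • y₀)
      rw [h1 _ hy₀, hν] at e1
      rw [h1 _ (h.mem hy₀ g), hν] at e2
      exact h.ns y₀ hy₀ ⟨by linarith, by linarith⟩
    · exfalso
      have e1 := hD k hk y₀
      have e2 := hD k hk (g • y₀)
      rw [h1 _ hy₀] at e1
      rw [h1 _ (h.mem hy₀ g), h.nu_sq hy₀] at e2
      exact h.ns y₀ hy₀ ⟨by linarith, by linarith⟩
    · exfalso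
      have e1 := hD k hk y₀
      have e2 := hD k hk (g • y₀)
      rw [h1 _ hy₀, hν] at e1
      rw [h1 _ (h.mem hy₀ g), hν, h.nu_sq hy₀] at e2
      exact h.ns y₀ hy₀ ⟨by linarith, by linarith⟩
  by_cases hDt : ∀ k ∈ D, ∀ z ∈ C, k • z = z
  · have hval : ∀ z ∈ C, ν z = 1 / 2 ∨ ν z = -(1 / 2) := by
      intro z hz
      obtain ⟨m, hm⟩ := hHT z hz
      have h1 : orbit D z = {z} := by
        ext w
        rw [Set.mem_singleton_iff]
        constructor
        · rintro ⟨k, rfl⟩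
          exact hDt k k.2 z hz
        · rintro rfl
          exact mem_orbit_self w
      rw [h1, Nat.card_unique, Nat.cast_one, one_mul] at hm
      exact half_of_int hm (habs z)
    by_cases hr : ∀ k : G, ∀ z ∈ C, k • g • z = g • k • z
    · exact case_cyclic h hy₀ hr hval hanti hsupp hrel
    push Not at hr
    obtain ⟨τ, z₁, hz₁, hz₁'⟩ := hr
    have hτ : ∀ z ∈ C, τ • g • z = ι • g • τ • z := (hrefl τ).resolve_left fun h1 => hz₁' (h1 z₁ hz₁)
    by_cases hall : ∀ z ∈ C, ∃ w ∈ orbit G z, τ • w = w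
    · exact case_one_type h hy₀ hτ hval hall hanti hsupp hrel
    by_cases hall' : ∀ z ∈ C, ∃ w ∈ orbit G z, τ • w = g • w
    · refine case_one_type (τ := g⁻¹ * τ) h hy₀ ?_ hval ?_ hanti hsupp hrel
      · intro z hz
        rw [mul_smul, hτ z hz, hC.comm, inv_smul_smul, mul_smul, smul_inv_smul]
      · intro z hz
        obtain ⟨w, hw, hw'⟩ := hall' z hz
        exact ⟨w, hw, by rw [mul_smul, hw', inv_smul_smul]⟩
    · push Not at hall hall'
      obtain ⟨a, ha, ha'⟩ := hall
      obtain ⟨b, hb, hb'⟩ := hall'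
      have h1 : ∃ w ∈ orbit G a, τ • w = g • w := by
        rcases types h hτ ha with ⟨w, hw, hw'⟩ | h2
        · exact absurd hw' (ha' w hw)
        · exact h2
      have h2 : ∃ w ∈ orbit G b, τ • w = w := by
        rcases types h hτ hb with h2 | ⟨w, hw, hw'⟩
        · exact h2
        · exact absurd hw' (hb' w hw)
      exact case_two_types h hτ hval hb ha h2 h1 hanti hsupp hrel
  · push Not at hDt
    obtain ⟨τ, hτD, z₁, hz₁, hz₁'⟩ := hDt
    have hτ : ∀ z ∈ C, τ • g • z = ι • g • τ • z :=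
      (hrefl τ).resolve_left fun h1 => hz₁' (hDc τ hτD h1 z₁ hz₁)
    have hτ' : ∀ z ∈ C, τ⁻¹ • g • z = ι • g • τ⁻¹ • z := by
      intro z hz
      have h1 := hτ (τ⁻¹ • z) (h.mem hz _)
      rw [smul_inv_smul] at h1
      rw [inv_smul_eq_iff, h.clus.comm τ, h1, h.ii]
    have hDz : ∀ z ∈ C, orbit D z ⊆ {z, τ • z} := by
      rintro z hz _ ⟨k, rfl⟩
      have hk : (k : G) • z = z ∨ (k : G) • z = τ • z := by
        rcases hrefl (k : G) with h1 | h1
        · exact Or.inl (hDc k k.2 h1 z hz)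
        · right
          have h2 : ∀ z ∈ C, ((k : G) * τ⁻¹) • g • z = g • ((k : G) * τ⁻¹) • z := by
            intro z hz
            rw [mul_smul, mul_smul, hτ' z hz, h.clus.comm, h1 _ (h.mem hz _), h.ii]
          have h3 := hDc _ (D.mul_mem k.2 (D.inv_mem hτD)) h2 (τ • z) (h.mem hz _)
          rwa [mul_smul, inv_smul_smul] at h3
      exact hk
    have hval : ∀ z ∈ C, ν z = 0 ∨ ν z = 1 / 2 ∨ ν z = -(1 / 2) := by
      intro z hz
      obtain ⟨m, hm⟩ := hHT z hz
      have h1 : Nat.card (orbit D z) ≤ 2 := by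
        have h2 : (orbit D z).ncard ≤ ({z, τ • z} : Set Ω).ncard :=
          Set.ncard_le_ncard (hDz z hz) (Set.toFinite _)
        have h3 := Set.ncard_insert_le z ({τ • z} : Set Ω)
        rw [Set.ncard_singleton] at h3
        exact h2.trans h3
      have h2 : 0 < Nat.card (orbit D z) := by
        have h3 : (orbit D z).Nonempty := ⟨z, mem_orbit_self z⟩
        exact (Set.ncard_pos (Set.toFinite _)).mpr h3
      have h3 : Nat.card (orbit D z) = 1 ∨ Nat.card (orbit D z) = 2 := by omega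
      rcases h3 with h3 | h3
      · rw [h3, Nat.cast_one, one_mul] at hm
        exact Or.inr (half_of_int hm (habs z))
      · rw [h3] at hm
        push_cast at hm
        exact half_of_int' hm (habs z)
    exact case_dec h hy₀ hτ (hD τ hτD) hval hanti hsupp hrel

end Pool.Agent.Lib.MP_950c68_ag.Surf
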