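import Mathlib
import Pool.Agent.Lib.MP_950c68_ag.Five.PL4
import Pool.Agent.Lib.MP_950c68_ag.Five.PL1

/-!
# Products of roots which are powers of `q` up to roots of unity (module Crit, MP_950c68_ag)

Proof: let `P = ∏_{y ∈ u} y ^ 2 / q` in `LF R` (the product over the multiset `u` of
`(y : LF R) ^ 2 / (q : LF R)`).  `P` is integral over `ℤ`: use the (private) lemma
`isIntegral_of_norm` of `Five/PL4.lean` (copy it with its private auxiliary lemmas): for primes
`l ≠ p` take any place `ψ` (`exists_place R l`): `‖ψ (g y)‖ = 1` for every root `y`, because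
`y * (iota R • y) = q`, both factors have norm `≤ 1` and `‖q‖ = 1`; for `l = p` take `φ`:
`logb q ‖φ (g P)‖ = ∑_{y ∈ u} 2 nu (g • y) = 0`, so the norm is `1`.  All complex absolute values of
`P` are `1` (see the end of the proof of `pow_eq_of_nu` in `Five/PL4.lean`), so `P ^ n = 1` for
some `n > 0` by Kronecker's theorem (`NumberField.Embeddings.pow_eq_one_of_norm_eq_one`).  Now take
the image in `ℂ` and multiply with `q ^ (n * card u)`.
-/

namespace Pool.Agent.Lib.MP_950c68_ag.Surf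

open Polynomial MulAction Pool.Agent.Lib.MP_950c68_ag.Orb Pool.Agent.Lib.MP_950c68_ag.Five

private theorem norm_coeff_prod_le_one {l : ℕ} [Fact l.Prime] {ι : Type*} (s : Finset ι)
    (b : ι → PadicAlgCl l) (hb : ∀ i ∈ s, ‖b i‖ ≤ 1) (n : ℕ) :
    ‖(∏ i ∈ s, (X - C (b i))).coeff n‖ ≤ 1 := by
  classical
  induction s using Finset.induction_on generalizing n with
  | empty =>
    rw [Finset.prod_empty, coeff_one]
    split_ifs
    · rw [norm_one]
    · rw [norm_zero]; exact zero_le_one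
  | insert i s hi ih =>
    have ih' := ih (fun j hj => hb j (Finset.mem_insert_of_mem hj))
    rw [Finset.prod_insert hi, sub_mul, coeff_sub, coeff_C_mul]
    have h1 : ‖b i * (∏ j ∈ s, (X - C (b j))).coeff n‖ ≤ 1 := by
      rw [norm_mul]
      exact mul_le_one₀ (hb i (Finset.mem_insert_self i s)) (norm_nonneg _) (ih' n)
    have h2 : ‖(X * ∏ j ∈ s, (X - C (b j))).coeff n‖ ≤ 1 := by
      cases n with
      | zero => rw [coeff_X_mul_zero, norm_zero]; exact zero_le_one
      | succ n => rw [coeff_X_mul]; exact ih' n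
    have h3 := IsUltrametricDist.norm_add_le_max ((X * ∏ j ∈ s, (X - C (b j))).coeff n)
      (-(b i * (∏ j ∈ s, (X - C (b j))).coeff n))
    rw [← sub_eq_add_neg, norm_neg] at h3
    exact h3.trans (max_le h2 h1)

private theorem exists_int_of_norm {a : ℚ} (h : ∀ (l : ℕ) [Fact l.Prime], ‖(a : ℚ_[l])‖ ≤ 1) :
    ∃ b : ℤ, (b : ℚ) = a := by
  by_cases hd : a.den = 1
  · exact ⟨a.num, Rat.coe_int_num_of_den_eq_one hd⟩
  exfalso
  obtain ⟨l, hl, hdvd⟩ := Nat.exists_prime_and_dvd hd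
  have : Fact l.Prime := ⟨hl⟩
  have h1 := h l
  have h2 : ((a.den : ℤ) : ℚ_[l]) * (a : ℚ_[l]) = (a.num : ℚ_[l]) := by
    have := Rat.den_mul_eq_num a
    exact_mod_cast congrArg (fun r : ℚ => (r : ℚ_[l])) this
  have h3 : ‖((a.den : ℤ) : ℚ_[l])‖ < 1 := by
    rw [Padic.norm_intCast_lt_one_iff]
    exact_mod_cast hdvd
  have h4 : ‖(a.num : ℚ_[l])‖ < 1 := by
    rw [← h2, norm_mul]
    calc _ ≤ ‖((a.den : ℤ) : ℚ_[l])‖ * 1 := by gcongr
      _ < 1 := by rw [mul_one]; exact h3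
  rw [Padic.norm_intCast_lt_one_iff] at h4
  have h5 : l ∣ a.num.natAbs := Int.natCast_dvd.mp h4
  have h6 := Nat.dvd_gcd h5 hdvd
  rw [a.reduced] at h6
  exact hl.one_lt.ne' (Nat.dvd_one.mp h6)

private theorem isIntegral_of_norm {R : ℚ[X]} {u : LF R}
    (h : ∀ (l : ℕ) [Fact l.Prime], ∃ ψ : LF R →ₐ[ℚ] PadicAlgCl l,
      ∀ g : LF R ≃ₐ[ℚ] LF R, ‖ψ (g u)‖ ≤ 1) : IsIntegral ℤ u := by
  classical
  let F : (LF R)[X] := ∏ g : LF R ≃ₐ[ℚ] LF R, (X - C (g u))
  have hF : F.Monic := monic_prod_of_monic _ _ fun y _ => monic_X_sub_C _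
  have hlift : F ∈ lifts (algebraMap ℚ (LF R)) := by
    rw [lifts_iff_coeff_lifts]
    intro i
    rw [InfiniteGalois.mem_range_algebraMap_iff_fixed]
    intro σ
    have h3 : F.map (σ : LF R →+* LF R) = F := by
      simp only [F, Polynomial.map_prod, Polynomial.map_sub, map_X, map_C]
      exact Fintype.prod_equiv (Equiv.mulLeft σ) _ _ fun g => rfl
    have h4 := congrArg (fun r : (LF R)[X] => r.coeff i) h3
    simp only [coeff_map] at h4
    exact h4
  obtain ⟨F₀, hF₀, _, hF₀m⟩ := lifts_and_natDegree_eq_and_monic hlift hF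
  have hcoeff : ∀ i, ∃ b : ℤ, (b : ℚ) = F₀.coeff i := by
    intro i
    apply exists_int_of_norm
    intro l hl
    obtain ⟨ψ, hψ⟩ := h l
    have h1 : ((F₀.coeff i : ℚ) : PadicAlgCl l) = (∏ g : LF R ≃ₐ[ℚ] LF R, (X - C (ψ (g u)))).coeff i := by
      have h2 : F.map (ψ : LF R →+* PadicAlgCl l) = ∏ g : LF R ≃ₐ[ℚ] LF R, (X - C (ψ (g u))) := by
        simp only [F, Polynomial.map_prod, Polynomial.map_sub, map_X, map_C]
        rfl
      rw [← h2, coeff_map, ← hF₀, coeff_map]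
      have h5 : (ψ : LF R →+* PadicAlgCl l) (algebraMap ℚ (LF R) (F₀.coeff i)) =
          algebraMap ℚ (PadicAlgCl l) (F₀.coeff i) := ψ.commutes _
      rw [h5]
      simp
    have h6 : ‖((F₀.coeff i : ℚ) : PadicAlgCl l)‖ ≤ 1 := by
      rw [h1]
      exact norm_coeff_prod_le_one _ _ (fun g _ => hψ g) i
    have h7 : (((F₀.coeff i : ℚ) : ℚ_[l]) : PadicAlgCl l) = ((F₀.coeff i : ℚ) : PadicAlgCl l) := by
      simp
    rw [← h7, PadicAlgCl.norm_extends] at h6
    exact h6
  have hlift' : F₀ ∈ lifts (algebraMap ℤ ℚ) := by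
    rw [lifts_iff_coeff_lifts]
    intro i
    obtain ⟨b, hb⟩ := hcoeff i
    exact ⟨b, hb⟩
  obtain ⟨F₁, hF₁, _, hF₁m⟩ := lifts_and_natDegree_eq_and_monic hlift' hF₀m
  refine ⟨F₁, hF₁m, ?_⟩
  have h8 : F₁.map (algebraMap ℤ (LF R)) = F := by
    rw [← hF₀, ← hF₁, Polynomial.map_map]
    congr 1
  rw [← eval_map, h8]
  simp only [F, eval_prod, eval_sub, eval_X, eval_C]
  exact Finset.prod_eq_zero (Finset.mem_univ (1 : LF R ≃ₐ[ℚ] LF R)) (by simp)

variable {R : ℚ[X]} {q f p : ℕ} [Fact p.Prime]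

private theorem norm_prod_fac {l : ℕ} [Fact l.Prime] (ψ : LF R →ₐ[ℚ] PadicAlgCl l)
    (g : LF R ≃ₐ[ℚ] LF R) (u : Multiset (R.rootSet (LF R))) :
    ‖ψ (g (u.map fun y : R.rootSet (LF R) => (y : LF R) ^ 2 / (q : LF R)).prod)‖ =
      (u.map fun y : R.rootSet (LF R) => ‖ψ ((g • y : R.rootSet (LF R)) : LF R)‖ ^ 2 /
        ‖(q : PadicAlgCl l)‖).prod := by
  induction u using Multiset.induction_on with
  | empty => simp
  | cons a u ih =>
    rw [Multiset.map_cons, Multiset.prod_cons, Multiset.map_cons, Multiset.prod_cons, map_mul,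
      map_mul, norm_mul, ih, map_div₀, map_div₀, norm_div, map_pow, map_pow, norm_pow,
      map_natCast, map_natCast, coe_smul_root]

private theorem prod_le_one_aux {ι : Type*} (u : Multiset ι) (F : ι → ℝ) (h0 : ∀ i, 0 ≤ F i)
    (h1 : ∀ i, F i ≤ 1) : (u.map F).prod ≤ 1 := by
  have : (u.map F).prod ≤ 1 ∧ 0 ≤ (u.map F).prod := by
    induction u using Multiset.induction_on with
    | empty => simp
    | cons a u ih =>
      rw [Multiset.map_cons, Multiset.prod_cons]
      exact ⟨mul_le_one₀ (h1 a) ih.2 ih.1, mul_nonneg (h0 a) ih.2⟩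
  exact this.1

private theorem norm_q' (hqp : q = p ^ f) : ‖(q : PadicAlgCl p)‖ = (q : ℝ)⁻¹ := by
  have h1 : ((q : ℚ_[p]) : PadicAlgCl p) = (q : PadicAlgCl p) := by simp
  rw [← h1, PadicAlgCl.norm_extends, hqp, Nat.cast_pow, norm_pow, Padic.norm_p, Nat.cast_pow,
    inv_pow]

private theorem logb_prod_fac (hqp : q = p ^ f) (hq1 : 1 < q)
    (hW : ∀ z : ℂ, aeval z R = 0 → ‖z‖ ^ 2 = q)
    (φ : LF R →ₐ[ℚ] PadicAlgCl p) (g : LF R ≃ₐ[ℚ] LF R) (u : Multiset (R.rootSet (LF R))) :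
    0 < (u.map fun y : R.rootSet (LF R) => ‖φ ((g • y : R.rootSet (LF R)) : LF R)‖ ^ 2 /
        ‖(q : PadicAlgCl p)‖).prod ∧
    Real.logb q (u.map fun y : R.rootSet (LF R) => ‖φ ((g • y : R.rootSet (LF R)) : LF R)‖ ^ 2 /
        ‖(q : PadicAlgCl p)‖).prod = 2 * (u.map fun y : R.rootSet (LF R) => nu q φ (g • y)).sum := by
  have hqR : (1 : ℝ) < q := by exact_mod_cast hq1
  have hq : q ≠ 0 := by omega
  induction u using Multiset.induction_on with
  | empty => simp
  | cons a u ih =>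
    rw [Multiset.map_cons, Multiset.prod_cons, Multiset.map_cons, Multiset.sum_cons]
    have h0 : 0 < ‖φ ((g • a : R.rootSet (LF R)) : LF R)‖ := by
      rw [norm_pos_iff]
      exact (map_ne_zero_iff φ φ.toRingHom.injective).mpr (root_ne_zero hW hq _)
    have h1 : 0 < ‖φ ((g • a : R.rootSet (LF R)) : LF R)‖ ^ 2 / ‖(q : PadicAlgCl p)‖ := by
      rw [norm_q' hqp]
      positivity
    refine ⟨mul_pos h1 ih.1, ?_⟩
    rw [Real.logb_mul h1.ne' ih.1.ne', ih.2]
    have h2 : Real.logb q (‖φ ((g • a : R.rootSet (LF R)) : LF R)‖ ^ 2 /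
        ‖(q : PadicAlgCl p)‖) = 2 * nu q φ (g • a) := by
      rw [norm_q' hqp, Real.logb_div (pow_ne_zero _ h0.ne') (by positivity), Real.logb_inv,
        Real.logb_self_eq_one hqR, Real.logb_pow, nu]
      push_cast
      ring
    rw [h2]
    ring

private theorem norm_emb_aux (hW : ∀ z : ℂ, aeval z R = 0 → ‖z‖ ^ 2 = q)
    (w : R.rootSet (LF R)) (φ : LF R →+* ℂ) : ‖φ (w : LF R)‖ ^ 2 = q := by
  apply hW
  have h1 : aeval (w : LF R) R = 0 := (mem_rootSet.mp w.2).2
  have h2 := congrArg φ h1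
  rw [map_zero] at h2
  have h3 : φ (aeval (w : LF R) R) = aeval (φ w) R := by
    have := Polynomial.hom_eval₂ R (algebraMap ℚ (LF R)) φ (w : LF R)
    rw [aeval_def, this, aeval_def]
    congr 1
    exact Subsingleton.elim _ _
  rw [← h3, h2]

private theorem norm_emb_prod (hq : q ≠ 0) (hW : ∀ z : ℂ, aeval z R = 0 → ‖z‖ ^ 2 = q)
    (φ : LF R →+* ℂ) (u : Multiset (R.rootSet (LF R))) :
    ‖φ (u.map fun y : R.rootSet (LF R) => (y : LF R) ^ 2 / (q : LF R)).prod‖ = 1 := by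
  induction u using Multiset.induction_on with
  | empty => simp
  | cons a u ih =>
    rw [Multiset.map_cons, Multiset.prod_cons, map_mul, norm_mul, ih, mul_one, map_div₀, norm_div,
      map_pow, norm_pow, map_natCast, norm_emb_aux hW]
    have hqR : (q : ℝ) ≠ 0 := by exact_mod_cast hq
    simp [hqR]

private theorem coe_prod_aux (hq : q ≠ 0) (u : Multiset (R.rootSet (LF R))) :
    (algebraMap (LF R) ℂ) (u.map fun y : R.rootSet (LF R) => (y : LF R) ^ 2 / (q : LF R)).prod *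
      (q : ℂ) ^ (Multiset.card u) = (u.map fun y : R.rootSet (LF R) => ((y : LF R) : ℂ)).prod ^ 2 := by
  have hqC : (q : ℂ) ≠ 0 := by exact_mod_cast hq
  induction u using Multiset.induction_on with
  | empty => simp
  | cons a u ih =>
    have h1 : (algebraMap (LF R) ℂ) (a : LF R) = ((a : LF R) : ℂ) := rfl
    rw [Multiset.map_cons, Multiset.prod_cons, Multiset.map_cons, Multiset.prod_cons, map_mul,
      Multiset.card_cons, mul_pow, ← ih, map_div₀, map_pow, map_natCast, h1]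
    field_simp
    ring

private theorem map_coe_aux (u : Multiset (R.rootSet (LF R))) :
    (u.map fun y => ((y : LF R) : ℂ)) =
      u.map fun y : R.rootSet (LF R) => ((y : LF R) : ℂ) := by
  simp only [Multiset.bind_def, Multiset.pure_def, Multiset.bind_singleton, Multiset.map_map,
    Function.comp_def]

theorem prod_pow_of_nu (hqp : q = p ^ f) (hf : f ≠ 0) (hW : ∀ z : ℂ, aeval z R = 0 → ‖z‖ ^ 2 = q)
    (hint : ∀ z : ℂ, aeval z R = 0 → IsIntegral ℤ z)
    (φ : LF R →ₐ[ℚ] PadicAlgCl p) (u : Multiset (R.rootSet (LF R)))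
    (h : ∀ g : LF R ≃ₐ[ℚ] LF R, (u.map fun y => nu q φ (g • y)).sum = 0) :
    ∃ n : ℕ, n ≠ 0 ∧ (u.map fun y => ((y : LF R) : ℂ)).prod ^ (2 * n) =
      (q : ℂ) ^ (n * Multiset.card u) := by
  classical
  have hp : 1 < p := (Fact.out : p.Prime).one_lt
  have hq1 : 1 < q := by rw [hqp]; exact Nat.one_lt_pow hf hp
  have hq : q ≠ 0 := by omega
  have hqR : (1 : ℝ) < q := by exact_mod_cast hq1
  have hintψ : ∀ (l : ℕ) [Fact l.Prime] (ψ : LF R →ₐ[ℚ] PadicAlgCl l) (w : R.rootSet (LF R)),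
      ‖ψ (w : LF R)‖ ≤ 1 := by
    intro l hl ψ w
    apply norm_le_one_of_isIntegral
    exact (isIntegral_root hint w).map (ψ.restrictScalars ℤ)
  have hP : IsIntegral ℤ (u.map fun y : R.rootSet (LF R) => (y : LF R) ^ 2 / (q : LF R)).prod := by
    apply isIntegral_of_norm
    intro l hl
    by_cases hlp : l = p
    · subst hlp
      refine ⟨φ, fun g => ?_⟩
      rw [norm_prod_fac]
      obtain ⟨h1, h2⟩ := logb_prod_fac hqp hq1 hW φ g u
      rw [h g, mul_zero] at h2
      have h3 := Real.logb_injOn_pos hqR (Set.mem_Ioi.2 h1) (Set.mem_Ioi.2 one_pos)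
        (h2.trans Real.logb_one.symm)
      exact h3.le
    · obtain ⟨ψ⟩ := exists_place R l
      refine ⟨ψ, fun g => ?_⟩
      rw [norm_prod_fac]
      have h2 : ‖((q : ℕ) : PadicAlgCl l)‖ = 1 := by
        have h3 : (((q : ℕ) : ℚ_[l]) : PadicAlgCl l) = ((q : ℕ) : PadicAlgCl l) := by simp
        rw [← h3, PadicAlgCl.norm_extends, Padic.norm_natCast_eq_one_iff, hqp]
        apply Nat.Coprime.pow_right
        rw [Nat.coprime_primes hl.out Fact.out]
        exact hlp
      apply prod_le_one_aux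
      · intro i
        positivity
      · intro i
        rw [h2, div_one]
        exact pow_le_one₀ (norm_nonneg _) (hintψ l ψ _)
  have hnf : NumberField (LF R) :=
    { to_charZero := inferInstance, to_finiteDimensional := inferInstance }
  obtain ⟨n, hn, hpow⟩ := NumberField.Embeddings.pow_eq_one_of_norm_eq_one (LF R) ℂ hP
    (fun φ => norm_emb_prod hq hW φ u)
  refine ⟨n, hn.ne', ?_⟩
  rw [map_coe_aux, pow_mul, ← coe_prod_aux hq u, mul_pow, ← map_pow, hpow, map_one, one_mul,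
    ← pow_mul, mul_comm]

end Pool.Agent.Lib.MP_950c68_ag.Surf
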