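import Mathlib
import Pool.Agent.Lib.MP_950c68_ag.Five.PL3

/-!
# The decomposition group (module Dec, MP_950c68_ag, products of abelian surfaces)

`LF R` is the field generated by the complex roots of `R` (a Galois extension of `ℚ`),
`φ : LF R →ₐ[ℚ] PadicAlgCl p` a place above `p`, `nu q φ y = logb q ‖φ y‖ + 1 / 2`.

Proof of `nu_dec`: `‖φ (g z)‖ = ‖σ (φ z)‖ = ‖φ z‖` (see `norm_algEquiv` in Five/PL3).
Proof of `nu_dec_hondaTate`: copy the proof of `nu_hondaTate` in `Five/PL3.lean` (with `e = 1`), with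
the set `S` replaced by the orbit of `y` under `Dec φ` (every `σ` in `PadicAlgCl p ≃ₐ[ℚ_[p]]
PadicAlgCl p` is induced on the image of `φ` by some `g`, see `exists_gal` there, which is in
`Dec φ`, so `S` is stable and `∏_{z ∈ S} (X - φ z)` has coefficients in `ℚ_p`); all its roots have
the same absolute value by `nu_dec`.
-/

namespace Pool.Agent.Lib.MP_950c68_ag.Surf

open Polynomial MulAction Pool.Agent.Lib.MP_950c68_ag.Orb Pool.Agent.Lib.MP_950c68_ag.Five

variable {R : ℚ[X]} {q f p : ℕ} [Fact p.Prime]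

private theorem norm_algEquiv (σ : PadicAlgCl p ≃ₐ[ℚ_[p]] PadicAlgCl p) (z : PadicAlgCl p) :
    ‖σ z‖ = ‖z‖ := by
  rw [← PadicAlgCl.spectralNorm_eq, ← PadicAlgCl.spectralNorm_eq]
  exact (spectralNorm_eq_of_equiv σ z).symm

private theorem exists_gal (φ : LF R →ₐ[ℚ] PadicAlgCl p)
    (σ : PadicAlgCl p ≃ₐ[ℚ_[p]] PadicAlgCl p) :
    ∃ g : LF R ≃ₐ[ℚ] LF R, ∀ z : LF R, φ (g z) = σ (φ z) := by
  let _ : Algebra (LF R) (PadicAlgCl p) := (φ : LF R →+* PadicAlgCl p).toAlgebra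
  have hT : IsScalarTower ℚ (LF R) (PadicAlgCl p) :=
    IsScalarTower.of_algebraMap_eq fun r => (φ.commutes r).symm
  exact ⟨(σ.restrictScalars ℚ).restrictNormal (LF R),
    fun z => AlgEquiv.restrictNormal_commutes (σ.restrictScalars ℚ) (LF R) z⟩

/-- The decomposition group of the place `φ`. -/
def Dec (φ : LF R →ₐ[ℚ] PadicAlgCl p) : Subgroup (LF R ≃ₐ[ℚ] LF R) where
  carrier := {g | ∃ σ : PadicAlgCl p ≃ₐ[ℚ_[p]] PadicAlgCl p, ∀ z : LF R, φ (g z) = σ (φ z)}
  one_mem' := ⟨AlgEquiv.refl, fun _ => rfl⟩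
  mul_mem' := by
    rintro a b ⟨σ, hσ⟩ ⟨τ, hτ⟩
    refine ⟨τ.trans σ, fun z => ?_⟩
    rw [AlgEquiv.mul_apply, hσ, hτ]
    rfl
  inv_mem' := by
    rintro a ⟨σ, hσ⟩
    refine ⟨σ.symm, fun z => ?_⟩
    rw [AlgEquiv.eq_symm_apply, ← hσ]
    congr 1
    exact a.apply_symm_apply z

/-- The decomposition group preserves `nu`. -/
theorem nu_dec (φ : LF R →ₐ[ℚ] PadicAlgCl p) {g : LF R ≃ₐ[ℚ] LF R} (hg : g ∈ Dec φ)
    (y : R.rootSet (LF R)) : nu q φ (g • y) = nu q φ y := by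
  obtain ⟨σ, hσ⟩ := hg
  rw [nu, nu, coe_smul_root, hσ, norm_algEquiv]

/-- The condition of Honda and Tate for the orbits of the decomposition group. -/
theorem nu_dec_hondaTate (hR0 : R ≠ 0) (hqp : q = p ^ f) (hf : f ≠ 0)
    (hW : ∀ z : ℂ, aeval z R = 0 → ‖z‖ ^ 2 = q)
    (φ : LF R →ₐ[ℚ] PadicAlgCl p) (y : R.rootSet (LF R))
    (hHT : ∀ H : ℚ_[p][X], H.Monic →
      H ∣ (minpoly ℚ ((y : LF R) : ℂ)).map (algebraMap ℚ ℚ_[p]) →
      ∃ m : ℤ, ‖H.eval 0‖ = (q : ℝ) ^ m) :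
    ∃ m : ℤ, (Nat.card (orbit (Dec φ) y) : ℝ) * (nu q φ y - 1 / 2) = m := by
  classical
  have hp : 1 < p := (Fact.out : p.Prime).one_lt
  have hq1 : 1 < q := by rw [hqp]; exact Nat.one_lt_pow hf hp
  have hq0 : q ≠ 0 := by omega
  have hφinj : Function.Injective φ := φ.toRingHom.injective
  let S : Finset (R.rootSet (LF R)) := Finset.univ.filter fun z => z ∈ orbit (Dec φ) y
  have hS : ∀ z, z ∈ S ↔ z ∈ orbit (Dec φ) y := fun z => by simp [S]
  have hcard : Nat.card (orbit (Dec φ) y) = S.card := by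
    rw [← Nat.card_eq_finsetCard S]
    refine Nat.card_congr ?_
    exact Equiv.subtypeEquivRight fun z => (hS z).symm
  have hnuS : ∀ z ∈ S, nu q φ z = nu q φ y := by
    intro z hz
    obtain ⟨g, rfl⟩ := (hS z).mp hz
    exact nu_dec φ g.2 y
  have hSorb : ∀ z ∈ S, z ∈ orbit (LF R ≃ₐ[ℚ] LF R) y := by
    intro z hz
    obtain ⟨g, rfl⟩ := (hS z).mp hz
    exact ⟨(g : LF R ≃ₐ[ℚ] LF R), rfl⟩
  -- the factor
  let H : (PadicAlgCl p)[X] := ∏ z ∈ S, (X - C (φ (z : LF R)))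
  have hH : H.Monic := monic_prod_of_monic _ _ fun z _ => monic_X_sub_C _
  have hlift : H ∈ lifts (algebraMap ℚ_[p] (PadicAlgCl p)) := by
    rw [lifts_iff_coeff_lifts]
    intro i
    rw [InfiniteGalois.mem_range_algebraMap_iff_fixed]
    intro σ
    obtain ⟨g, hg⟩ := exists_gal φ σ
    have hgD : g ∈ Dec φ := ⟨σ, hg⟩
    have hst : ∀ z ∈ S, g • z ∈ S := by
      intro z hz
      rw [hS] at hz ⊢
      have h1 := mem_orbit_smul (⟨g, hgD⟩ : Dec φ) hz
      exact h1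
    have h3 : H.map (σ : PadicAlgCl p →+* PadicAlgCl p) = H := by
      simp only [H, Polynomial.map_prod, Polynomial.map_sub, map_X, map_C]
      have h5 := prod_smul_of_stable hst (fun z => X - C (φ (z : LF R)))
      rw [← h5]
      refine Finset.prod_congr rfl fun z _ => ?_
      rw [coe_smul_root, hg]
      rfl
    have h4 := congrArg (fun r : (PadicAlgCl p)[X] => r.coeff i) h3
    simp only [coeff_map] at h4
    exact h4
  obtain ⟨H₁, hH₁, _, hH₁m⟩ := lifts_and_natDegree_eq_and_monic hlift hH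
  have hdvd : H ∣ (minpoly ℚ ((y : LF R) : ℂ)).map (algebraMap ℚ (PadicAlgCl p)) := by
    apply Finset.prod_dvd_of_coprime
    · intro a _ b _ hab
      exact pairwise_coprime_X_sub_C (s := fun z : R.rootSet (LF R) => φ (z : LF R))
        (hφinj.comp Subtype.val_injective) hab
    · intro z hz
      rw [dvd_iff_isRoot, IsRoot.def, eval_map_algebraMap]
      have hint : IsIntegral ℚ ((y : LF R) : ℂ) := IsAlgebraic.isIntegral ⟨R, hR0, aeval_root y⟩
      have h1 := (isConjRoot_iff_aeval_eq_zero hint).mp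
        ((mem_orbit_iff_isConjRoot y z).mp (hSorb z hz))
      have h2 : aeval (z : LF R) (minpoly ℚ ((y : LF R) : ℂ)) = 0 := by
        apply (algebraMap (LF R) ℂ).injective
        rw [← aeval_algebraMap_apply, map_zero]
        exact h1
      rw [aeval_algHom_apply, h2, map_zero]
  have hdvd1 : H₁ ∣ (minpoly ℚ ((y : LF R) : ℂ)).map (algebraMap ℚ ℚ_[p]) := by
    rw [← map_dvd_map' (algebraMap ℚ_[p] (PadicAlgCl p)), hH₁, Polynomial.map_map,
      ← IsScalarTower.algebraMap_eq]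
    exact hdvd
  obtain ⟨m, hm⟩ := hHT H₁ hH₁m hdvd1
  refine ⟨m, ?_⟩
  have hnorm : ‖H₁.eval 0‖ = ∏ z ∈ S, ‖φ (z : LF R)‖ := by
    rw [← PadicAlgCl.norm_extends]
    have h1 : ((H₁.eval 0 : ℚ_[p]) : PadicAlgCl p) = H.eval 0 := by
      rw [← hH₁, ← coeff_zero_eq_eval_zero, ← coeff_zero_eq_eval_zero, coeff_map]
    rw [h1]
    simp only [H, eval_prod, eval_sub, eval_X, eval_C, zero_sub]
    rw [norm_prod]
    refine Finset.prod_congr rfl fun z _ => norm_neg _
  have hlog : Real.logb q ‖H₁.eval 0‖ = S.card * (nu q φ y - 1 / 2) := by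
    rw [hnorm, Real.logb_prod]
    · rw [← nsmul_eq_mul, ← Finset.sum_const]
      refine Finset.sum_congr rfl fun z hz => ?_
      have := hnuS z hz
      rw [nu] at this
      linarith
    · intro z _
      rw [norm_ne_zero_iff]
      exact (map_ne_zero_iff φ hφinj).mpr (root_ne_zero hW hq0 z)
  have h5 := congrArg (Real.logb q) hm
  have hqR : (1 : ℝ) < q := by exact_mod_cast hq1
  rw [hlog, ← Real.rpow_intCast, Real.logb_rpow (by linarith) hqR.ne'] at h5
  rw [hcard]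
  exact h5

end Pool.Agent.Lib.MP_950c68_ag.Surf
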