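import Mathlib
import Pool.Agent.Lib.MP_950c68_ag.Five.OneOrbit

/-!
# Multisets generated by classes on products of surfaces (module Gs, MP_950c68_ag)

Proofs: `of_gen` by induction on `Gen`.  `G0S.add`, `G0S.cancel`, `G0S.cancel_all`: copy the proofs
of `G0.add`, `G0.cancel` (Five/A4.lean) and `G0.cancel_all` (Five/OneOrbit.lean).  `G0S.of_rel`: copy
the proof of `G0.of_rel` (Five/OneOrbit.lean), where `G0.of_symm` gives `G0 p q (s + v)` and
`G0S.of_G0` gives `G0S`.
-/

namespace Pool.Agent.Lib.MP_950c68_ag.Surf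

open Polynomial MulAction Pool.Agent.Lib.MP_950c68_ag.Orb Pool.Agent.Lib.MP_950c68_ag.Dim3
open Pool.Agent.Lib.MP_950c68_ag.Five

variable {p : ℕ} [Fact p.Prime] {q f : ℕ}

/-- The multisets obtained from Tate multisets with two elements, Weil classes on abelian varieties
of dimension four and six and classes of codimension two on products of abelian surfaces by forming
unions and by removing pairs `{α, q / α}`. -/
inductive GenS (p : ℕ) [Fact p.Prime] (q : ℕ) : Multiset ℂ → Prop
  /-- divisor classes -/
  | one (α β : ℂ) : IsTate q {α, β} → GenS p q {α, β}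
  /-- Weil classes on `A × E ^ k` -/
  | weil (x w : ℂ) (Φ : Finset ℂ) (e k : ℕ) : IsWeil q x → Distinct x →
      Five.HondaTate p q e x → HalfSystem q x Φ → Ordinary p q w ∨ Supersingular q w →
      (e * Φ.card + k = 4 ∨ e * Φ.card + k = 6 ∧ k ≠ 0) →
      IsTate q (e • Φ.val + Multiset.replicate k w) → GenS p q (e • Φ.val + Multiset.replicate k w)
  /-- classes of codimension two on products of abelian surfaces -/
  | surf (s : Multiset ℂ) : IsTate q s → Multiset.card s = 4 →
      (∀ z ∈ s, Supersingular q z ∨ Simple p q 2 z) → GenS p q s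
  /-- exterior products -/
  | add (s t : Multiset ℂ) : GenS p q s → GenS p q t → GenS p q (s + t)
  /-- contraction -/
  | cancel (α : ℂ) (s : Multiset ℂ) : IsWeil q α → s ≠ 0 → GenS p q ({α, q / α} + s) → GenS p q s

/-- Empty or generated. -/
def G0S (p : ℕ) [Fact p.Prime] (q : ℕ) (s : Multiset ℂ) : Prop := s = 0 ∨ GenS p q s

theorem GenS.of_gen {s : Multiset ℂ} (hs : Five.Gen p q s) : GenS p q s := by
  induction hs with
  | one α β h => exact GenS.one α β h
  | weil x w Φ e k h1 h2 h3 h4 h5 h6 h7 => exact GenS.weil x w Φ e k h1 h2 h3 h4 h5 h6 h7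
  | add s t _ _ ihs iht => exact GenS.add s t ihs iht
  | cancel α s hα hs _ ih => exact GenS.cancel α s hα hs ih

theorem G0S.of_G0 {s : Multiset ℂ} (hs : Five.G0 p q s) : G0S p q s := by
  rcases hs with h | h
  · exact Or.inl h
  · exact Or.inr (GenS.of_gen h)

theorem G0S.add {s t : Multiset ℂ} (hs : G0S p q s) (ht : G0S p q t) : G0S p q (s + t) := by
  rcases hs with rfl | hs
  · rwa [zero_add]
  · rcases ht with rfl | ht
    · rw [add_zero]; exact Or.inr hs
    · exact Or.inr (hs.add _ _ ht)

theorem G0S.cancel {α : ℂ} {s : Multiset ℂ} (hα : IsWeil q α)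
    (h : G0S p q ({α, (q : ℂ) / α} + s)) : G0S p q s := by
  by_cases hs : s = 0
  · exact Or.inl hs
  · rcases h with h | h
    · exfalso
      have := congrArg Multiset.card h
      simp at this
    · exact Or.inr (GenS.cancel α s hα hs h)

theorem G0S.cancel_all {s u : Multiset ℂ} (hu : ∀ z ∈ u, IsWeil q z)
    (h : G0S p q (s + (u + u.map fun z => (q : ℂ) / z))) : G0S p q s := by
  induction u using Multiset.induction_on with
  | empty => simpa using h
  | cons a u ih =>
    apply ih (fun z hz => hu z (Multiset.mem_cons_of_mem hz))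
    apply G0S.cancel (hu a (Multiset.mem_cons_self _ _))
    convert h using 1
    simp only [Multiset.map_cons, Multiset.insert_eq_cons, Multiset.cons_add,
      Multiset.singleton_add, Multiset.add_cons]
    exact Multiset.cons_swap _ _ _

theorem G0S.of_rel (hq : q ≠ 0) {s u : Multiset ℂ} (hs : IsTate q s) (huT : IsTate q u)
    (hu : G0S p q u) (h : ∀ z : ℂ, z ∈ s ∨ z ∈ u ∨ (q : ℂ) / z ∈ s ∨ (q : ℂ) / z ∈ u →
      ¬ Supersingular q z → s.count z + u.count ((q : ℂ) / z) = u.count z + s.count ((q : ℂ) / z)) :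
    G0S p q s := by
  classical
  have hq' : (q : ℂ) ≠ 0 := by exact_mod_cast hq
  set v := u.map fun z => (q : ℂ) / z with hv
  have hvW : ∀ z ∈ v, IsWeil q z := by
    intro z hz
    rw [hv, Multiset.mem_map] at hz
    obtain ⟨w, hw, rfl⟩ := hz
    exact (huT.1 w hw).div hq
  have hcv : ∀ z : ℂ, z ≠ 0 → v.count z = u.count ((q : ℂ) / z) :=
    fun z hz => count_map_div hq huT.1 hz
  have hdd : ∀ z : ℂ, z ≠ 0 → (q : ℂ) / ((q : ℂ) / z) = z := by
    intro z hz
    field_simp
  -- `v` is a Tate multiset
  have huv : IsTate q (u + v) := by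
    apply isTate_of_symm hq
    · intro z hz
      rcases Multiset.mem_add.mp hz with h1 | h1
      · exact huT.1 z h1
      · exact hvW z h1
    · rw [Multiset.card_add, hv, Multiset.card_map]
      exact ⟨_, rfl⟩
    · intro z hz _
      have hz0 : z ≠ 0 := by
        rcases Multiset.mem_add.mp hz with h1 | h1
        · exact (huT.1 z h1).ne_zero hq
        · exact (hvW z h1).ne_zero hq
      rw [Multiset.count_add, Multiset.count_add, hcv z hz0, hcv _ (div_ne_zero hq' hz0), hdd z hz0]
      exact add_comm _ _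
  have hvT : IsTate q v := by
    apply IsTate.of_add hq (t := u) _ huT
    rwa [add_comm]
  have hB : G0S p q (s + v) := by
    apply G0S.of_G0
    apply G0.of_symm hq (hs.add hvT)
    intro z hz hns
    have hz0 : z ≠ 0 := by
      rcases Multiset.mem_add.mp hz with h1 | h1
      · exact (hs.1 z h1).ne_zero hq
      · exact (hvW z h1).ne_zero hq
    have h1 : z ∈ s ∨ z ∈ u ∨ (q : ℂ) / z ∈ s ∨ (q : ℂ) / z ∈ u := by
      rcases Multiset.mem_add.mp hz with h1 | h1
      · exact Or.inl h1
      · rw [← Multiset.count_pos, hcv z hz0, Multiset.count_pos] at h1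
        exact Or.inr (Or.inr (Or.inr h1))
    have h2 := h z h1 hns
    rw [Multiset.count_add, Multiset.count_add, hcv z hz0, hcv _ (div_ne_zero hq' hz0), hdd z hz0]
    omega
  have h3 := G0S.add hu hB
  apply G0S.cancel_all huT.1
  convert h3 using 1
  rw [← hv]
  abel

end Pool.Agent.Lib.MP_950c68_ag.Surf
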