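import Mathlib
import Pool.Agent.Lib.MP_950c68_ag.Surf.CasC
import Pool.Agent.Lib.MP_950c68_ag.Surf.Gs
import Pool.Agent.Lib.MP_950c68_ag.Surf.Dec
import Pool.Agent.Lib.MP_950c68_ag.Surf.Crit
import Pool.Agent.Lib.MP_950c68_ag.Five.A7

/-!
# Tate multisets of surfaces with the same Galois closure
-/

namespace Pool.Agent.Lib.MP_950c68_ag.Surf

open Polynomial MulAction Pool.Agent.Lib.MP_950c68_ag.Orb Pool.Agent.Lib.MP_950c68_ag.Dim3
open Pool.Agent.Lib.MP_950c68_ag.Five

variable {p : ℕ} [Fact p.Prime] {q f : ℕ}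

/-- The conjugates generate this field. -/
noncomputable abbrev clo (x : ℂ) : IntermediateField ℚ ℂ :=
  IntermediateField.adjoin ℚ {z : ℂ | IsConjRoot ℚ x z}

theorem clo_congr {x y : ℂ} (h : IsConjRoot ℚ x y) : clo x = clo y := by
  unfold clo
  congr 1
  ext z
  exact ⟨fun h1 => h.symm.trans h1, fun h1 => h.trans h1⟩

/-- The multisets of complex numbers for a multiset of roots: a member `w` is added if the
cardinality is odd. -/
noncomputable def lift {R : ℚ[X]} (w : ℂ) (u : Multiset (R.rootSet (LF R))) : Multiset ℂ :=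
  (u.map fun y : R.rootSet (LF R) => ((y : LF R) : ℂ)) +
    Multiset.replicate (Multiset.card u % 2) w

theorem isTate_lift {R : ℚ[X]} (hq : q ≠ 0) (hqp : q = p ^ f) (hf : f ≠ 0)
    (hW : ∀ z : ℂ, aeval z R = 0 → ‖z‖ ^ 2 = q) (hWR : ∀ z : ℂ, aeval z R = 0 → IsWeil q z)
    (hint : ∀ z : ℂ, aeval z R = 0 → IsIntegral ℤ z) (φ : LF R →ₐ[ℚ] PadicAlgCl p)
    {w : ℂ} (hw2 : w ^ 2 = q) (hwW : IsWeil q w) (u : Multiset (R.rootSet (LF R)))
    (h : ∀ g : LF R ≃ₐ[ℚ] LF R, (u.map fun y => nu q φ (g • y)).sum = 0) :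
    IsTate q (lift w u) := by
  obtain ⟨n, hn, hp⟩ := prod_pow_of_nu hqp hf hW hint φ u h
  have hmap : (Multiset.map (fun y : LF R => (y : ℂ)) do
      let a ← u
      pure (a : LF R)) = u.map fun y : R.rootSet (LF R) => ((y : LF R) : ℂ) := by
    simp only [Multiset.pure_def, Multiset.bind_def, Multiset.bind_singleton, Multiset.map_map]
    rfl
  rw [hmap] at hp
  refine ⟨?_, (Multiset.card u + Multiset.card u % 2) / 2, 2 * n, ?_, by omega, ?_⟩
  · intro z hz
    rw [lift, Multiset.mem_add] at hz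
    rcases hz with hz | hz
    · rw [Multiset.mem_map] at hz
      obtain ⟨y, _, rfl⟩ := hz
      exact hWR _ (aeval_root y)
    · rw [Multiset.eq_of_mem_replicate hz]
      exact hwW
  · rw [lift, Multiset.card_add, Multiset.card_map, Multiset.card_replicate]
    omega
  · rw [lift, Multiset.prod_add, Multiset.prod_replicate, mul_pow, hp]
    have h1 : (w ^ (Multiset.card u % 2)) ^ (2 * n) = (q : ℂ) ^ (n * (Multiset.card u % 2)) := by
      rw [← pow_mul, mul_comm (Multiset.card u % 2), mul_assoc, pow_mul, hw2]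
    rw [h1, ← pow_add]
    congr 1
    have h2 : Multiset.card u + Multiset.card u % 2 =
        2 * ((Multiset.card u + Multiset.card u % 2) / 2) := by omega
    rw [← mul_add, h2, mul_comm 2 n, mul_assoc]
    congr 2
    omega

/-- Tate multisets of simple abelian surfaces with one Galois closure. -/
theorem G0S.cluster (hqp : q = p ^ f) (hq : q ≠ 0) {s : Multiset ℂ} (hT : IsTate q s)
    {K : IntermediateField ℚ ℂ}
    (hall : ∀ z ∈ s, ¬ Supersingular q z → Simple p q 2 z ∧ clo z = K) : G0S p q s := by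
  classical
  by_cases hex : ∃ z ∈ s, ¬ Supersingular q z
  swap
  · push Not at hex
    exact G0S.of_G0 (G0.of_symm hq hT fun z hz hzn => absurd (hex z hz) hzn)
  obtain ⟨z₀, hz₀, hz₀n⟩ := hex
  have hq' : (q : ℂ) ≠ 0 := by exact_mod_cast hq
  obtain ⟨R, hR0, hroot, m, hm, hLam⟩ := exists_setup hq hT
  obtain ⟨hW, hint, hns⟩ := facts_of_root hT.1 hroot
  have h0 : ∀ x : R.rootSet (LF R), ((x : LF R) : ℂ) ≠ 0 := by
    intro y
    have := root_ne_zero hW hq y
    simpa using this
  have hWR : ∀ z : ℂ, aeval z R = 0 → IsWeil q z := by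
    intro z hz
    obtain ⟨x, hx, _, hxz⟩ := (hroot z).mp hz
    exact (hT.1 x hx).of_isConjRoot hxz
  have hnss : ∀ y : R.rootSet (LF R), ¬ Supersingular q ((y : LF R) : ℂ) := by
    rintro y ⟨n, hn, h1⟩
    exact hns _ (aeval_root y) n hn h1
  have hS : ∀ y : R.rootSet (LF R), Simple p q 2 ((y : LF R) : ℂ) ∧ clo ((y : LF R) : ℂ) = K := by
    intro y
    obtain ⟨x, hx, hxn, hxy⟩ := (hroot _).mp (aeval_root y)
    obtain ⟨⟨h1, h2, h3⟩, h4⟩ := hall x hx hxn
    have hmin : minpoly ℚ x = minpoly ℚ ((y : LF R) : ℂ) := hxy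
    refine ⟨⟨by rw [← hmin, h1], h2.of_isConjRoot (hT.1 x hx).1.tower_top hxy, ?_⟩, ?_⟩
    · intro H hH hdvd
      rw [← hmin] at hdvd
      exact h3 H hH hdvd
    · rw [← clo_congr hxy, h4]
  have hr : rr s R ∈ Sat R q hq' h0 := by
    refine ⟨m, by exact_mod_cast hm, ?_⟩
    have h1 := hLam hq' h0
    have h2 : (fun y : R.rootSet (LF R) => (m : ℤ) * rr s R y) =
        fun y : R.rootSet (LF R) => ((m * s.count ((y : LF R) : ℂ) : ℕ) : ℤ) -
            ((m * s.count (((iota R • y : R.rootSet (LF R)) : LF R) : ℂ) : ℕ) : ℤ) := by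
      ext y
      rw [rr]
      push_cast
      ring
    rw [h2]
    exact h1
  have hanti : ∀ y, rr s R (iota R • y) = - rr s R y := by
    intro y
    rw [rr, rr, iota_iota hW hq]
    ring
  obtain ⟨x₀, hx₀⟩ := exists_root hR0 ((hroot z₀).mpr ⟨z₀, hz₀, hz₀n, rfl⟩)
  have hf := Five.exponent_ne_zero hqp hW hint hns x₀
  obtain ⟨φ⟩ := exists_place R p
  have hC : Clus (iota R) (Set.univ : Set (R.rootSet (LF R))) := by
    refine ⟨smul_iota hW hq, iota_iota hW hq, iota_ne hW hq hns, fun _ _ _ => Set.mem_univ _,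
      ?_, ?_⟩
    · intro y _
      obtain ⟨⟨h1, h2, h3⟩, _⟩ := hS y
      exact fourType_of_degree hR0 hW hint hq hns hqp y h1 (fun z hz hne n hn => h2 z hz hne n hn)
        (fun Φ _ => h3)
    · intro y _ z _
      exact kernel_of_adjoin_eq hR0 y z (by
        have h1 := (hS y).2
        have h2 := (hS z).2
        rw [clo] at h1 h2
        rw [h1, h2])
  have hmem : rr s R ∈ RelSub (iota R) (nu q φ) (Set.univ : Set (R.rootSet (LF R))) := by
    refine hC.generated (D := Dec φ) (nu_iota hqp hf hW φ) (fun k hk y => nu_dec φ hk y) ?_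
      (abs_nu_le hqp hf hW hint φ) ?_ hanti (fun y hy => absurd (Set.mem_univ y) hy)
      (sum_nu_sat hqp hf hW φ hr)
    · intro y _
      exact nu_dec_hondaTate hR0 hqp hf hW φ y (hS y).1.2.2
    · intro y _
      by_contra hcon
      push Not at hcon
      obtain ⟨n, hn, h1⟩ := pow_eq_of_nu hqp hf hW hint φ y (iota R • y) (by
        intro g
        rw [smul_iota hW hq, nu_iota hqp hf hW, hcon, neg_zero])
      apply hns _ (aeval_root y) n hn
      rw [coe_iota' hW hq, div_pow, eq_div_iff (pow_ne_zero _ (h0 y)), ← pow_add] at h1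
      rw [two_mul]
      exact h1
  obtain ⟨w, hw2, hwss, hwW, hwd⟩ := exists_sqrt hq
  -- counts of lifts
  have hcount : ∀ (u : Multiset (R.rootSet (LF R))) (y : R.rootSet (LF R)),
      (lift w u).count ((y : LF R) : ℂ) = u.count y := by
    intro u y
    rw [lift, Multiset.count_add, Multiset.count_map_eq_count' _ _ coe_injective]
    have h1 : ((y : LF R) : ℂ) ≠ w := fun h => hnss y (by rw [h]; exact hwss)
    rw [Multiset.count_replicate, if_neg (fun h => h1 h.symm), add_zero]
  have hrl : ∀ z ∈ (s : Multiset ℂ), ¬ Supersingular q z → aeval z R = 0 :=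
    fun z hz hzn => (hroot z).mpr ⟨z, hz, hzn, rfl⟩
  -- lifts of short relations
  have hshort : ∀ u : Multiset (R.rootSet (LF R)), Multiset.card u ≤ 4 →
      (∀ g : LF R ≃ₐ[ℚ] LF R, (u.map fun y => nu q φ (g • y)).sum = 0) →
      IsTate q (lift w u) ∧ G0S p q (lift w u) := by
    intro u hu hsum
    have hTu := isTate_lift hq hqp hf hW hWR hint φ hw2 hwW u hsum
    refine ⟨hTu, ?_⟩
    have hcard : Multiset.card (lift w u) = Multiset.card u + Multiset.card u % 2 := by
      rw [lift, Multiset.card_add, Multiset.card_map, Multiset.card_replicate]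
    have hcases : Multiset.card (lift w u) = 0 ∨ Multiset.card (lift w u) = 2 ∨
        Multiset.card (lift w u) = 4 := by omega
    rcases hcases with h1 | h1 | h1
    · left
      exact Multiset.card_eq_zero.mp h1
    · right
      obtain ⟨a, b, hab⟩ := Multiset.card_eq_two.mp h1
      rw [hab] at hTu ⊢
      exact GenS.one a b hTu
    · right
      apply GenS.surf _ hTu h1
      intro z hz
      rw [lift, Multiset.mem_add] at hz
      rcases hz with hz | hz
      · rw [Multiset.mem_map] at hz
        obtain ⟨y, _, rfl⟩ := hz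
        exact Or.inr (hS y).1
      · rw [Multiset.eq_of_mem_replicate hz]
        exact Or.inl hwss
  have hdec : ∀ (i₁ i₂ : DecidableEq (R.rootSet (LF R))) (z : R.rootSet (LF R))
      (u : Multiset (R.rootSet (LF R))), @Multiset.count _ i₁ z u = @Multiset.count _ i₂ z u := by
    intro i₁ i₂ z u
    rw [Subsingleton.elim i₁ i₂]
  -- the induction
  have key : ∀ d ∈ RelSub (iota R) (nu q φ) (Set.univ : Set (R.rootSet (LF R))),
      ∃ u v : Multiset ℂ, (IsTate q u ∧ G0S p q u ∧ (∀ z ∈ u, ¬ Supersingular q z → aeval z R = 0) ∧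
        ∀ y, rr u R y = d y) ∧ (IsTate q v ∧ G0S p q v ∧
        (∀ z ∈ v, ¬ Supersingular q z → aeval z R = 0) ∧ ∀ y, rr v R y = - d y) := by
    intro d hd
    rw [RelSub] at hd
    induction hd using AddSubgroup.closure_induction with
    | mem e he =>
      obtain ⟨u, hu4, _, hsum, rfl⟩ := he
      have hsum' : ∀ g : LF R ≃ₐ[ℚ] LF R,
          ((u.map fun y => iota R • y).map fun y => nu q φ (g • y)).sum = 0 := by
        intro g
        rw [Multiset.map_map]
        have h1 : (u.map ((fun y => nu q φ (g • y)) ∘ fun y => iota R • y)) =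
            u.map fun y => - nu q φ (g • y) := by
          apply Multiset.map_congr rfl
          intro y _
          simp only [Function.comp_apply]
          rw [smul_iota hW hq, nu_iota hqp hf hW]
        rw [h1, Multiset.sum_map_neg, hsum g, neg_zero]
      obtain ⟨h1, h2⟩ := hshort u hu4 hsum
      obtain ⟨h3, h4⟩ := hshort (u.map fun y => iota R • y) (by rw [Multiset.card_map]; exact hu4)
        hsum'
      have hroots : ∀ u : Multiset (R.rootSet (LF R)), ∀ z ∈ lift w u, ¬ Supersingular q z →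
          aeval z R = 0 := by
        intro u z hz hzn
        rw [lift, Multiset.mem_add] at hz
        rcases hz with hz | hz
        · rw [Multiset.mem_map] at hz
          obtain ⟨y, _, rfl⟩ := hz
          exact aeval_root y
        · rw [Multiset.eq_of_mem_replicate hz] at hzn
          exact absurd hwss hzn
      have hinj : Function.Injective fun y : R.rootSet (LF R) => iota R • y :=
        MulAction.injective (iota R)
      have hcι : ∀ y : R.rootSet (LF R), (u.map fun y => iota R • y).count y =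
          u.count (iota R • y) := by
        intro y
        have h5 := Multiset.count_map_eq_count' (fun y : R.rootSet (LF R) => iota R • y) u hinj
          (iota R • y)
        rw [iota_iota hW hq] at h5
        exact h5
      refine ⟨lift w u, lift w (u.map fun y => iota R • y), ⟨h1, h2, hroots _, ?_⟩,
        ⟨h3, h4, hroots _, ?_⟩⟩
      · intro y
        rw [rr, hcount, hcount, vec]
        exact congrArg₂ (fun a b : ℕ => (a : ℤ) - b) (hdec _ _ _ _) (hdec _ _ _ _)
      · intro y
        rw [rr, hcount, hcount, hcι, hcι, iota_iota hW hq, vec, neg_sub]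
        exact congrArg₂ (fun a b : ℕ => (a : ℤ) - b) (hdec _ _ _ _) (hdec _ _ _ _)
    | zero =>
      have hz : IsTate q (0 : Multiset ℂ) := ⟨by simp, 0, 1, by simp, one_pos, by simp⟩
      refine ⟨0, 0, ⟨hz, Or.inl rfl, by simp, ?_⟩, ⟨hz, Or.inl rfl, by simp, ?_⟩⟩
      · intro y; simp [rr]
      · intro y; simp [rr]
    | add a b _ _ iha ihb =>
      obtain ⟨u, v, ⟨a1, a2, a3, a4⟩, ⟨a5, a6, a7, a8⟩⟩ := iha
      obtain ⟨u', v', ⟨b1, b2, b3, b4⟩, ⟨b5, b6, b7, b8⟩⟩ := ihb
      refine ⟨u + u', v + v', ⟨a1.add b1, a2.add b2, ?_, ?_⟩, ⟨a5.add b5, a6.add b6, ?_, ?_⟩⟩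
      · intro z hz hzn
        rcases Multiset.mem_add.mp hz with h1 | h1
        · exact a3 z h1 hzn
        · exact b3 z h1 hzn
      · intro y
        rw [Pi.add_apply, ← a4, ← b4]
        simp only [rr, Multiset.count_add]
        push_cast
        ring
      · intro z hz hzn
        rcases Multiset.mem_add.mp hz with h1 | h1
        · exact a7 z h1 hzn
        · exact b7 z h1 hzn
      · intro y
        rw [Pi.add_apply, neg_add, ← a8, ← b8]
        simp only [rr, Multiset.count_add]
        push_cast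
        ring
    | neg a _ iha =>
      obtain ⟨u, v, ⟨a1, a2, a3, a4⟩, ⟨a5, a6, a7, a8⟩⟩ := iha
      refine ⟨v, u, ⟨a5, a6, a7, ?_⟩, ⟨a1, a2, a3, ?_⟩⟩
      · intro y
        rw [a8, Pi.neg_apply]
      · intro y
        rw [a4, Pi.neg_apply, neg_neg]
  obtain ⟨u, -, ⟨hTu, hGu, hru, hu⟩, -⟩ := key _ hmem
  apply G0S.of_rel hq hT hTu hGu
  intro z hz hzn
  have hzroot : aeval z R = 0 := by
    have hdiv : ∀ t : ℂ, (q : ℂ) / t = z → ¬ Supersingular q t → IsWeil q t → aeval t R = 0 →
        aeval z R = 0 := by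
      intro t ht _ htW htR
      obtain ⟨y, rfl⟩ := exists_root hR0 htR
      rw [← ht, ← coe_iota' hW hq]
      exact aeval_root _
    rcases hz with hz | hz | hz | hz
    · exact hrl z hz hzn
    · exact hru z hz hzn
    · have hWz := hT.1 _ hz
      have hz0 : z ≠ 0 := by
        rintro rfl
        rw [div_zero] at hWz
        exact hWz.ne_zero hq rfl
      have h1 : (q : ℂ) / ((q : ℂ) / z) = z := by field_simp
      have h2 : ¬ Supersingular q ((q : ℂ) / z) := by
        intro h3
        apply hzn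
        have h4 := h3.of_isConjRoot (hWz.isConjRoot hq)
        rwa [h1] at h4
      exact hdiv _ h1 h2 hWz (hrl _ hz h2)
    · have hWz := hTu.1 _ hz
      have hz0 : z ≠ 0 := by
        rintro rfl
        rw [div_zero] at hWz
        exact hWz.ne_zero hq rfl
      have h1 : (q : ℂ) / ((q : ℂ) / z) = z := by field_simp
      have h2 : ¬ Supersingular q ((q : ℂ) / z) := by
        intro h3
        apply hzn
        have h4 := h3.of_isConjRoot (hWz.isConjRoot hq)
        rwa [h1] at h4
      exact hdiv _ h1 h2 hWz (hru _ hz h2)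
  obtain ⟨y, rfl⟩ := exists_root hR0 hzroot
  have h1 := hu y
  rw [rr, rr, coe_iota' hW hq] at h1
  omega

end Pool.Agent.Lib.MP_950c68_ag.Surf
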