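import Mathlib
import Pool.Agent.Lib.MP_950c68_ag.OrbSemi

/-!
# Kernels of orbits with four elements (module Ker, MP_950c68_ag)

`FourType ι x` (OrbSemi.lean): there is `g` with `g • g • x = ι • x` and the orbit of `x` is
`{x, ι x, g x, ι g x}`; see also `FourType.sq` there.

Proof of `kernel_of_le`: let `h` act trivially on the orbit of `y` but not on the orbit of `x`.  The
elements acting trivially on the orbit of `y` form a normal subgroup `M` containing
`N = {those acting trivially on the orbit of x}`.  If `h` commutes with `g` on the orbit of `x` then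
`h` acts there as `g`, `ι` or `ι g` and one of `h`, `h ^ 2` acts as `ι`; if not then
`h g h⁻¹` acts as `ι g` (its square is `ι`), so `h g h⁻¹ g⁻¹ ∈ M` acts as `ι`.  So there is `m ∈ M`
which acts as `ι` on the orbit of `x`, then `m ι⁻¹ ∈ N ≤ M`, so `ι ∈ M`, contradiction to
`ι y ≠ y`.
-/

namespace Pool.Agent.Lib.MP_950c68_ag.Surf

open MulAction Pool.Agent.Lib.MP_950c68_ag.Orb

variable {G Ω : Type*} [Group G] [MulAction G Ω]

theorem kernel_of_le {ι : G} (hι : ∀ (g : G) (y : Ω), g • ι • y = ι • g • y)
    (hιι : ∀ y : Ω, ι • ι • y = y) (hιne : ∀ y : Ω, ι • y ≠ y) {x y : Ω} (hx : FourType ι x)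
    (hle : ∀ g : G, (∀ z ∈ orbit G x, g • z = z) → ∀ z ∈ orbit G y, g • z = z) :
    ∀ g : G, (∀ z ∈ orbit G y, g • z = z) → ∀ z ∈ orbit G x, g • z = z := by
  obtain ⟨g, hg, horb⟩ := hx
  -- no element of the kernel of `y` acts as `ι`
  have hno : ∀ m : G, (∀ z ∈ orbit G y, m • z = z) → m • x = ι • x → m • g • x = ι • g • x →
      False := by
    intro m hm h1 h2
    have h3 : ∀ z ∈ orbit G x, (ι * m) • z = z := by
      intro z hz
      rcases horb z hz with rfl | rfl | rfl | rfl
      · rw [mul_smul, h1, hιι]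
      · rw [mul_smul, hι, h1, hιι]
      · rw [mul_smul, h2, hιι]
      · rw [mul_smul, hι, h2, hιι]
    have h4 := hle _ h3 y (mem_orbit_self y)
    rw [mul_smul, hm y (mem_orbit_self y)] at h4
    exact hιne y h4
  have hne1 : g • x ≠ x := by
    intro h
    rw [h, h] at hg
    exact hιne x hg.symm
  have hne2 : g • x ≠ ι • x := by
    intro h
    have h1 : g • g • x = ι • g • x := by conv_lhs => rw [h, hι]
    rw [hg] at h1
    have h2 : x = g • x := by
      have := congrArg (fun z => ι • z) h1
      simpa [hιι] using this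
    exact hne1 h2.symm
  have hinv : g⁻¹ • x = ι • g • x := by
    rw [inv_smul_eq_iff, hι, hg, hιι]
  intro h hh
  have hsq : ∀ z ∈ orbit G y, (h * h) • z = z := by
    intro z hz
    rw [mul_smul, hh z hz, hh z hz]
  have hcomm : ∀ z ∈ orbit G y, (h * (g * h * g⁻¹)) • z = z := by
    intro z hz
    have h1 : (g * h * g⁻¹) • z = z := by
      rw [mul_smul, mul_smul, hh (g⁻¹ • z) (mem_orbit_smul _ hz), smul_inv_smul]
    rw [mul_smul, h1, hh z hz]
  have hc1 : (h * (g * h * g⁻¹)) • x = ι • h • g • h • g • x := by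
    rw [mul_smul, mul_smul, mul_smul, hinv, hι, hι, hι]
  have hc2 : (h * (g * h * g⁻¹)) • g • x = h • g • h • x := by
    rw [mul_smul, mul_smul, mul_smul, inv_smul_smul]
  have hιinj : ∀ a b : Ω, ι • a = ι • b → a = b := fun a b h => smul_left_cancel ι h
  have hinj : ∀ a b : Ω, h • a = h • b → a = b := fun a b h' => smul_left_cancel h h'
  have key : h • x = x ∧ h • g • x = g • x := by
    rcases horb (h • x) (mem_orbit x h) with h1 | h1 | h1 | h1 <;>
    rcases horb (h • g • x) (by rw [← mul_smul]; exact mem_orbit x _) with h2 | h2 | h2 | h2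
    · -- h x = x, h g x = x
      exact absurd (hinj _ _ (h2.trans h1.symm)) hne1
    · -- h x = x, h g x = ι x
      have : h • ι • x = ι • x := by rw [hι, h1]
      exact absurd (hinj _ _ (h2.trans this.symm)) hne2
    · exact ⟨h1, h2⟩
    · -- h x = x, h g x = ι g x
      refine (hno _ hcomm ?_ ?_).elim
      · rw [hc1, h2, hι, hι, hg, hιι, hι, h1]
      · rw [hc2, h1, h2]
    · -- h x = ι x, h g x = x
      have : h • ι • x = x := by rw [hι, h1, hιι]
      exact absurd (hinj _ _ (h2.trans this.symm)) hne2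
    · -- h x = ι x, h g x = ι x
      exact absurd (hinj _ _ (h2.trans h1.symm)) hne1
    · -- h x = ι x, h g x = g x
      refine (hno _ hcomm ?_ ?_).elim
      · rw [hc1, h2, hg, hι, h1, hιι]
      · rw [hc2, h1, hι, hι, h2]
    · -- acts as ι
      exact (hno h hh h1 h2).elim
    · -- h x = g x, h g x = x
      refine (hno _ hcomm ?_ ?_).elim
      · rw [hc1, h2, h2]
      · rw [hc2, h1, hg, hι, h1]
    · -- h x = g x, h g x = ι x
      refine (hno _ hsq ?_ ?_).elim
      · rw [mul_smul, h1, h2]
      · rw [mul_smul, h2, hι, h1]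
    · -- h x = g x, h g x = g x
      exact absurd (hinj _ _ (h2.trans h1.symm)) hne1
    · -- h x = g x, h g x = ι g x
      have : h • ι • x = ι • g • x := by rw [hι, h1]
      exact absurd (hinj _ _ (h2.trans this.symm)) hne2
    · -- h x = ι g x, h g x = x
      refine (hno _ hsq ?_ ?_).elim
      · rw [mul_smul, h1, hι, h2]
      · rw [mul_smul, h2, h1]
    · -- h x = ι g x, h g x = ι x
      refine (hno _ hcomm ?_ ?_).elim
      · rw [hc1, h2, hι, hι, h2, hιι]
      · rw [hc2, h1, hι, hg, hιι, h1]
    · -- h x = ι g x, h g x = g x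
      have : h • ι • x = g • x := by rw [hι, h1, hιι]
      exact absurd (hinj _ _ (h2.trans this.symm)) hne2
    · exact absurd (hinj _ _ (h2.trans h1.symm)) hne1
  intro z hz
  rcases horb z hz with rfl | rfl | rfl | rfl
  · exact key.1
  · rw [hι, key.1]
  · exact key.2
  · rw [hι, key.2]

end Pool.Agent.Lib.MP_950c68_ag.Surf
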