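import Mathlib
import Pool.Agent.Lib.MP_950c68_ag.Surf.Fin
import Pool.Agent.Lib.MP_950c68_ag.Surf.Avg
import Pool.Agent.Lib.MP_950c68_ag.Surf.Ker
import Pool.Agent.Lib.MP_950c68_ag.Five.Products

/-!
# Splitting off the surfaces with the same Galois closure
-/

namespace Pool.Agent.Lib.MP_950c68_ag.Surf

open Polynomial MulAction Pool.Agent.Lib.MP_950c68_ag.Orb Pool.Agent.Lib.MP_950c68_ag.Dim3
open Pool.Agent.Lib.MP_950c68_ag.Five

variable {p : ℕ} [Fact p.Prime] {q f : ℕ}

/-- The hypotheses of the theorem. -/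
structure GoodS (p : ℕ) [Fact p.Prime] (q : ℕ) (s : Multiset ℂ) : Prop where
  tate : IsTate q s
  type : ∀ x ∈ s, Supersingular q x ∨ (Ordinary p q x ∨ Cubic p q x) ∨ Large p q x ∨
    (Iso p q x ∧ Isolated q s x)
  clos : ∀ x ∈ s, ∀ y ∈ s, Large p q x → Large p q y → ¬ IsConjRoot ℚ x y →
    IntermediateField.adjoin ℚ {z : ℂ | IsConjRoot ℚ x z} ≠
      IntermediateField.adjoin ℚ {z : ℂ | IsConjRoot ℚ y z} ∨
    (Simple p q 2 x ∧ Simple p q 2 y)

/-- The product formula for a relation. -/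
theorem prod_of_rr {R : ℚ[X]} (hR0 : R ≠ 0) (hW : ∀ z : ℂ, aeval z R = 0 → ‖z‖ ^ 2 = q)
    (hq : q ≠ 0) {hq' : (q : ℂ) ≠ 0} {h0 : ∀ x : R.rootSet (LF R), ((x : LF R) : ℂ) ≠ 0}
    {a : Multiset ℂ} (ha : ∀ z ∈ a, aeval z R = 0) (hr : rr a R ∈ Sat R q hq' h0) :
    ∃ M : ℕ, M ≠ 0 ∧ a.prod ^ (2 * M) = (q : ℂ) ^ (M * Multiset.card a) := by
  classical
  obtain ⟨m, hm, hL⟩ := hr
  have h1 := prod_hat hW hq hL
  have hP : ∏ y : R.rootSet (LF R), (((y : LF R) : ℂ) ^ 2 / (q : ℂ)) ^ a.count ((y : LF R) : ℂ) =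
      (a.map fun z => z ^ 2 / (q : ℂ)).prod := by
    rw [Finset.prod_multiset_map_count]
    have h1 : ∏ y : R.rootSet (LF R), (((y : LF R) : ℂ) ^ 2 / (q : ℂ)) ^
        a.count ((y : LF R) : ℂ) =
        ∏ z ∈ Finset.univ.image (fun y : R.rootSet (LF R) => ((y : LF R) : ℂ)),
          (z ^ 2 / (q : ℂ)) ^ a.count z := by
      rw [Finset.prod_image coe_injective.injOn]
    rw [h1]
    symm
    apply Finset.prod_subset_one_on_sdiff
    · intro z hz
      rw [Multiset.mem_toFinset] at hz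
      obtain ⟨y, rfl⟩ := exists_root hR0 (ha z hz)
      exact Finset.mem_image_of_mem _ (Finset.mem_univ y)
    · intro z hz
      rw [Finset.mem_sdiff, Multiset.mem_toFinset] at hz
      rw [Multiset.count_eq_zero_of_notMem hz.2, pow_zero]
    · intro z _
      rfl
  set V := (a.map fun z => z ^ 2 / (q : ℂ)).prod with hV
  have hne : ∀ y : R.rootSet (LF R), (((y : LF R) : ℂ) ^ 2 / (q : ℂ)) ≠ 0 := fun y =>
    div_ne_zero (pow_ne_zero _ (h0 y)) hq'
  have hP' : ∏ y : R.rootSet (LF R), (((y : LF R) : ℂ) ^ 2 / (q : ℂ)) ^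
      a.count (((iota R • y : R.rootSet (LF R)) : LF R) : ℂ) = V⁻¹ := by
    rw [← hP, ← Equiv.prod_comp (MulAction.toPerm (iota R)) (fun y : R.rootSet (LF R) =>
      (((y : LF R) : ℂ) ^ 2 / (q : ℂ)) ^ a.count (((iota R • y : R.rootSet (LF R)) : LF R) : ℂ)),
      ← Finset.prod_inv_distrib]
    refine Finset.prod_congr rfl fun y _ => ?_
    rw [MulAction.toPerm_apply, iota_iota hW hq, coe_iota' hW hq, ← inv_pow]
    congr 1
    have := h0 y
    field_simp
  have h2 : V ^ (2 * m) = 1 := by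
    have h3 : ∏ y : R.rootSet (LF R), (((y : LF R) : ℂ) ^ 2 / (q : ℂ)) ^ (m * rr a R y) =
        (V * (V⁻¹)⁻¹) ^ m := by
      rw [← hP', ← hP, ← Finset.prod_inv_distrib, ← Finset.prod_mul_distrib, ← Finset.prod_zpow]
      refine Finset.prod_congr rfl fun y _ => ?_
      rw [rr, mul_comm m, zpow_mul, zpow_sub₀ (hne y), zpow_natCast, zpow_natCast]
      rfl
    rw [h1, inv_inv, ← sq, ← zpow_natCast, ← zpow_mul] at h3
    rw [h3]
    norm_cast
  have h4 : V ^ (2 * m.natAbs) = 1 := by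
    rcases Int.natAbs_eq m with h5 | h5
    · rw [h5] at h2
      exact_mod_cast h2
    · rw [h5] at h2
      have h6 : V ^ (-(2 * (m.natAbs : ℤ))) = 1 := by
        rw [← h2]
        congr 1
        ring
      rw [zpow_neg, inv_eq_one] at h6
      exact_mod_cast h6
  have hVp : V * (q : ℂ) ^ Multiset.card a = a.prod ^ 2 := by
    rw [hV, Multiset.prod_map_div, Multiset.prod_map_pow, Multiset.map_id', Multiset.map_const',
      Multiset.prod_replicate]
    exact div_mul_cancel₀ _ (pow_ne_zero _ hq')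
  refine ⟨2 * m.natAbs, by omega, ?_⟩
  calc a.prod ^ (2 * (2 * m.natAbs)) = (a.prod ^ 2) ^ (2 * m.natAbs) := by rw [← pow_mul]
    _ = (q : ℂ) ^ (2 * m.natAbs * Multiset.card a) := by
        rw [← hVp, mul_pow, h4, one_mul, ← pow_mul, mul_comm]

open scoped Classical in
/-- The relation of the members with one Galois closure. -/
theorem rr_mem_Sat (hqp : q = p ^ f) (hq : q ≠ 0) {s : Multiset ℂ} (hG : GoodS p q s)
    (hiso : ∀ z ∈ s, ¬ Supersingular q z → ¬ (Iso p q z ∧ Isolated q s z)) {x : ℂ} (hx : x ∈ s)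
    (hxS : Simple p q 2 x) {a b : Multiset ℂ} (hab : s = a + b)
    (ha : ∀ z ∈ a, ¬ Supersingular q z ∧ clo z = clo x)
    (hb : ∀ z ∈ b, ¬ Supersingular q z → clo z ≠ clo x) :
    (∃ M : ℕ, M ≠ 0 ∧ a.prod ^ (2 * M) = (q : ℂ) ^ (M * Multiset.card a)) ∧
      ∀ z ∈ a, Simple p q 2 z := by
  classical
  have hq' : (q : ℂ) ≠ 0 := by exact_mod_cast hq
  have hWx := hG.tate.1 x hx
  have hxL : Large p q x := Or.inl hxS
  have hxn := hxL.not_supersingular hq hWx
  obtain ⟨R, hR0, hroot, m, hm, hLam⟩ := exists_setup hq hG.tate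
  obtain ⟨hW, hint, hns⟩ := facts_of_root hG.tate.1 hroot
  have h0 : ∀ x : R.rootSet (LF R), ((x : LF R) : ℂ) ≠ 0 := by
    intro y
    have := root_ne_zero hW hq y
    simpa using this
  obtain ⟨x', hx'⟩ := exists_root hR0 ((hroot x).mpr ⟨x, hx, hxn, rfl⟩)
  have hr : rr s R ∈ Sat R q hq' h0 := by
    refine ⟨m, by exact_mod_cast hm, ?_⟩
    have h1 := hLam hq' h0
    have h2 : (fun y : R.rootSet (LF R) => (m : ℤ) * rr s R y) =
        fun y : R.rootSet (LF R) => ((m * s.count ((y : LF R) : ℂ) : ℕ) : ℤ) -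
            ((m * s.count (((iota R • y : R.rootSet (LF R)) : LF R) : ℂ) : ℕ) : ℤ) := by
      ext y
      rw [rr]
      push_cast
      ring
    rw [h2]
    exact h1
  have hsmul : ∀ d ∈ Sat R q hq' h0, ∀ g : LF R ≃ₐ[ℚ] LF R,
      (fun y => d (g • y)) ∈ Sat R q hq' h0 := by
    rintro d ⟨n, hn, hd⟩ g
    exact ⟨n, hn, Lam_smul hW hq _ hd g⟩
  have hanti : ∀ y, rr s R (iota R • y) = - rr s R y := by
    intro y
    rw [rr, rr, iota_iota hW hq]
    ring
  have hι := smul_iota hW hq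
  have hιι := iota_iota hW hq
  have hιne := iota_ne hW hq hns
  have hf4 : FourType (iota R) x' := by
    refine fourType_of_degree hR0 hW hint hq hns hqp x' (by rw [hx']; exact hxS.1) ?_ ?_
    · rw [hx']
      exact hxS.2.1
    · rw [hx']
      exact fun Φ _ => hxS.2.2
  -- the kernel
  let N : Subgroup (LF R ≃ₐ[ℚ] LF R) :=
    { carrier := {g | ∀ z ∈ orbit (LF R ≃ₐ[ℚ] LF R) x', g • z = z}
      one_mem' := fun z _ => one_smul _ z
      mul_mem' := by
        intro g h hg hh z hz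
        rw [mul_smul, hh z hz, hg z hz]
      inv_mem' := by
        intro g hg z hz
        rw [inv_smul_eq_iff, hg z hz] }
  have hN : ∀ g, g ∈ N ↔ ∀ z ∈ orbit (LF R ≃ₐ[ℚ] LF R) x', g • z = z := fun g => Iff.rfl
  have hNfix : ∀ y : R.rootSet (LF R), clo ((y : LF R) : ℂ) = clo x → ∀ g ∈ N, g • y = y := by
    intro y hy g hg
    exact kernel_of_adjoin_eq hR0 x' y (by
      have h1 : clo (((x' : LF R)) : ℂ) = clo ((y : LF R) : ℂ) := by rw [hy, hx']
      exact h1) g hg y (mem_orbit_self y)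
  -- degree of the roots
  have hmem : ∀ y : R.rootSet (LF R), ∃ z ∈ s, ¬ Supersingular q z ∧
      IsConjRoot ℚ z ((y : LF R) : ℂ) := fun y => (hroot _).mp (aeval_root y)
  have hdeg2 : ∀ z ∈ s, ¬ Supersingular q z → (Ordinary p q z ∨ Cubic p q z) →
      (minpoly ℚ z).natDegree = 2 := by
    intro z hz hzn h1
    rcases h1 with h1 | h1
    · exact natDegree_ordinary hq (hG.tate.1 z hz) hzn h1
    · exact h1.1
  have htype : ∀ z ∈ s, ¬ Supersingular q z → (minpoly ℚ z).natDegree = 2 ∨ Large p q z := by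
    intro z hz hzn
    rcases hG.type z hz with h1 | h1 | h1 | h1
    · exact absurd h1 hzn
    · exact Or.inl (hdeg2 z hz hzn h1)
    · exact Or.inr h1
    · exact absurd h1 (hiso z hz hzn)
  -- members with the same closure are simple surfaces
  have hsimple : ∀ z ∈ s, ¬ Supersingular q z → clo z = clo x → Simple p q 2 z := by
    intro z hz hzn hzx
    rcases htype z hz hzn with h1 | h1
    · exfalso
      obtain ⟨y, hy⟩ := exists_root hR0 ((hroot z).mpr ⟨z, hz, hzn, rfl⟩)
      have h2 := orbit_two hR0 hW hq hns y (by rw [hy]; exact h1)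
      obtain ⟨g, hg, hg'⟩ := hf4
      have h3 : ∀ v : R.rootSet (LF R), ∀ hv : v ∈ orbit (LF R ≃ₐ[ℚ] LF R) x',
          g • g • v = iota R • v := FourType.sq hι hg hg'
      have h4 : (iota R)⁻¹ * (g * g) ∈ N := by
        intro v hv
        rw [mul_smul, mul_smul, h3 v hv, inv_smul_smul]
      have h5 := hNfix y (by rw [hy]; exact hzx) _ h4
      rw [mul_smul, mul_smul, inv_smul_eq_iff] at h5
      rcases h2 (g • y) (mem_orbit y g) with h6 | h6
      · rw [h6, h6] at h5
        exact hιne y h5.symm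
      · rw [h6, hι, h6, hιι] at h5
        exact hιne y h5.symm
    · by_cases hc : IsConjRoot ℚ z x
      · have hmin : minpoly ℚ z = minpoly ℚ x := hc
        refine ⟨by rw [hmin]; exact hxS.1,
          hxS.2.1.of_isConjRoot hWx.1.tower_top hc.symm, ?_⟩
        intro H hH hdvd
        rw [hmin] at hdvd
        exact hxS.2.2 H hH hdvd
      · rcases hG.clos z hz x hx h1 hxL hc with h2 | h2
        · exact absurd hzx h2
        · exact h2.1
  refine ⟨?_, fun z hz => hsimple z (by rw [hab]; exact Multiset.mem_add.mpr (Or.inl hz))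
    (ha z hz).1 (ha z hz).2⟩
  -- the average
  have hfinG : Finite (LF R ≃ₐ[ℚ] LF R) := inferInstance
  let _ : Fintype (LF R ≃ₐ[ℚ] LF R) := Fintype.ofFinite _
  let d : R.rootSet (LF R) → ℤ := fun y => ∑ g ∈ Finset.univ.filter (fun g => g ∈ N), rr s R (g • y)
  have hd : d ∈ Sat R q hq' h0 := by
    have h1 : d = ∑ g ∈ Finset.univ.filter (fun g => g ∈ N), fun y => rr s R (g • y) := by
      ext y
      rw [Finset.sum_apply]
    rw [h1]
    exact AddSubgroup.sum_mem _ fun g _ => hsmul _ hr g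
  have hdanti : ∀ y, d (iota R • y) = - d y := by
    intro y
    simp only [d]
    rw [← Finset.sum_neg_distrib]
    refine Finset.sum_congr rfl fun g _ => ?_
    rw [hι, hanti]
  have hdinv : ∀ h ∈ N, ∀ y, d (h • y) = d y := by
    intro h hh y
    simp only [d]
    refine Finset.sum_bij (fun g _ => g * h) ?_ ?_ ?_ ?_
    · intro g hg
      rw [Finset.mem_filter] at hg ⊢
      exact ⟨Finset.mem_univ _, N.mul_mem hg.2 hh⟩
    · intro g _ g' _ he
      exact mul_right_cancel he
    · intro g hg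
      rw [Finset.mem_filter] at hg
      exact ⟨g * h⁻¹, Finset.mem_filter.mpr ⟨Finset.mem_univ _, N.mul_mem hg.2 (N.inv_mem hh)⟩,
        inv_mul_cancel_right g h⟩
    · intro g _
      rw [mul_smul]
  have hin : ∀ y : R.rootSet (LF R), clo ((y : LF R) : ℂ) = clo x →
      d y = (Finset.univ.filter (fun g => g ∈ N)).card * rr s R y := by
    intro y hy
    simp only [d]
    rw [Finset.sum_congr rfl (fun g hg => by
      rw [hNfix y hy g (Finset.mem_filter.mp hg).2]), Finset.sum_const, nsmul_eq_mul]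
  have hout : ∀ y : R.rootSet (LF R), clo ((y : LF R) : ℂ) ≠ clo x → d y = 0 := by
    intro y hy
    refine eq_zero_of_invariant hι hιι hιne hf4 hN ?_ hdanti hdinv y (mem_orbit_self y)
    obtain ⟨z, hz, hzn, hzy⟩ := hmem y
    have hmin : minpoly ℚ z = minpoly ℚ ((y : LF R) : ℂ) := hzy
    have hcard : Nat.card (orbit (LF R ≃ₐ[ℚ] LF R) y) = (minpoly ℚ z).natDegree := by
      rw [card_orbit hR0, hmin]
    rw [hcard]
    have hfour : (minpoly ℚ z).natDegree = 4 →
        ∃ g ∈ N, ∃ v ∈ orbit (LF R ≃ₐ[ℚ] LF R) y, g • v ≠ v := by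
      intro _
      by_contra hcon
      push Not at hcon
      have h1 := kernel_of_le hι hιι hιne hf4 (y := y) (fun g hg v hv => hcon g hg v hv)
      apply hy
      have h2 := adjoin_eq_of_kernel hR0 y x' (fun σ => ⟨h1 σ, fun hσ v hv => hcon σ hσ v hv⟩)
      rw [hx'] at h2
      exact h2
    rcases htype z hz hzn with h1 | h1
    · left
      rw [h1]
      norm_num
    · rcases h1 with h1 | h1 | ⟨l, hl, h1, _⟩
      · exact Or.inr ⟨h1.1, hfour h1.1⟩
      · left
        rw [h1.1]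
        norm_num
      · rcases hl.eq_two_or_odd with rfl | hodd
        · exact Or.inr ⟨h1, hfour h1⟩
        · left
          rw [h1]
          omega
  have haR : ∀ z ∈ a, aeval z R = 0 := fun z hz =>
    (hroot z).mpr ⟨z, by rw [hab]; exact Multiset.mem_add.mpr (Or.inl hz), (ha z hz).1, rfl⟩
  have hdr : ∀ y, d y = ((Finset.univ.filter (fun g => g ∈ N)).card : ℤ) * rr a R y := by
    intro y
    by_cases hy : clo ((y : LF R) : ℂ) = clo x
    · rw [hin y hy]
      congr 1
      rw [rr, rr, hab, Multiset.count_add, Multiset.count_add]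
      have hb0 : ∀ v : R.rootSet (LF R), clo ((v : LF R) : ℂ) = clo x →
          b.count ((v : LF R) : ℂ) = 0 := by
        intro v hv
        apply Multiset.count_eq_zero_of_notMem
        intro hvb
        refine hb _ hvb ?_ hv
        rintro ⟨n, hn, h1⟩
        exact hns _ (aeval_root v) n hn h1
      have h2 : clo (((iota R • y : R.rootSet (LF R)) : LF R) : ℂ) = clo x := by
        rw [← hy]
        exact (clo_congr ((mem_orbit_iff_isConjRoot y _).mp (mem_orbit y (iota R)))).symm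
      rw [hb0 y hy, hb0 _ h2]
      simp
    · rw [hout y hy, rr]
      have ha0 : ∀ v : R.rootSet (LF R), clo ((v : LF R) : ℂ) ≠ clo x →
          a.count ((v : LF R) : ℂ) = 0 := by
        intro v hv
        apply Multiset.count_eq_zero_of_notMem
        intro hva
        exact hv (ha _ hva).2
      have h2 : clo (((iota R • y : R.rootSet (LF R)) : LF R) : ℂ) ≠ clo x := by
        intro h3
        apply hy
        rw [← h3]
        exact clo_congr ((mem_orbit_iff_isConjRoot y _).mp (mem_orbit y (iota R)))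
      rw [ha0 y hy, ha0 _ h2]
      simp
  apply prod_of_rr hR0 hW hq (hq' := hq') (h0 := h0) haR
  obtain ⟨n, hn, hdn⟩ := hd
  refine ⟨n * (Finset.univ.filter (fun g => g ∈ N)).card, mul_ne_zero hn ?_, ?_⟩
  · have h1 : 0 < (Finset.univ.filter (fun g => g ∈ N)).card :=
      Finset.card_pos.mpr ⟨1, Finset.mem_filter.mpr ⟨Finset.mem_univ _, N.one_mem⟩⟩
    exact_mod_cast h1.ne'
  · have h1 : (fun y => n * ((Finset.univ.filter (fun g => g ∈ N)).card : ℤ) * rr a R y) =
        fun y => n * d y := by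
      ext y
      rw [hdr]
      ring
    rw [h1]
    exact hdn

end Pool.Agent.Lib.MP_950c68_ag.Surf
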