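import Mathlib
import Pool.Agent.Lib.MP_950c68_ag.Surf.Spl

/-!
# Products with surfaces with the same Galois closure: the induction
-/

namespace Pool.Agent.Lib.MP_950c68_ag.Surf

open Polynomial MulAction Pool.Agent.Lib.MP_950c68_ag.Orb Pool.Agent.Lib.MP_950c68_ag.Dim3
open Pool.Agent.Lib.MP_950c68_ag.Five

variable {p : ℕ} [Fact p.Prime] {q f : ℕ}

/-- A splitting of a Tate multiset. -/
theorem split (hq : q ≠ 0) {s a b : Multiset ℂ} (hT : IsTate q s) (hab : s = a + b)
    (haM : ∃ M : ℕ, M ≠ 0 ∧ a.prod ^ (2 * M) = (q : ℂ) ^ (M * Multiset.card a))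
    (hA : ∀ u : Multiset ℂ, (∀ z ∈ u, Supersingular q z ∧ IsWeil q z) → IsTate q (a + u) →
      G0S p q (a + u))
    (hB : ∀ u : Multiset ℂ, (∀ z ∈ u, Supersingular q z ∧ IsWeil q z) → IsTate q (b + u) →
      G0S p q (b + u)) : G0S p q s := by
  classical
  obtain ⟨M, hM, hMp⟩ := haM
  obtain ⟨w, hw2, hwss, hwW, hwd⟩ := exists_sqrt hq
  have haW : ∀ z ∈ a, IsWeil q z := fun z hz =>
    hT.1 z (by rw [hab]; exact Multiset.mem_add.mpr (Or.inl hz))
  have key : ∀ u : Multiset ℂ, (∀ z ∈ u, z = w) → IsTate q (a + u) → IsTate q (u + u) →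
      G0S p q s := by
    intro u hu hau huu
    have hu' : ∀ z ∈ u, Supersingular q z ∧ IsWeil q z := fun z hz => by
      rw [hu z hz]; exact ⟨hwss, hwW⟩
    have hbu : IsTate q (b + u) := by
      apply IsTate.of_add hq (t := a + u) _ hau
      have h1 : b + u + (a + u) = s + (u + u) := by
        rw [hab]
        abel
      rw [h1]
      exact hT.add huu
    apply G0S.cancel_all (u := u) (fun z hz => (hu' z hz).2)
    have h3 : (u.map fun z => (q : ℂ) / z) = u := by
      conv_rhs => rw [← Multiset.map_id u]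
      apply Multiset.map_congr rfl
      intro z hz
      rw [hu z hz]
      exact hwd
    rw [h3]
    have h4 : s + (u + u) = (a + u) + (b + u) := by
      rw [hab]
      abel
    rw [h4]
    exact (hA u hu' hau).add (hB u hu' hbu)
  rcases Nat.even_or_odd (Multiset.card a) with ⟨k, hk⟩ | ⟨k, hk⟩
  · apply key 0 (by simp)
    · rw [add_zero]
      refine ⟨haW, k, 2 * M, by rw [hk]; ring, by omega, ?_⟩
      rw [hMp, hk]
      congr 1
      ring
    · rw [add_zero]
      exact ⟨by simp, 0, 1, by simp, one_pos, by simp⟩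
  · apply key {w} (by simp)
    · refine ⟨?_, k + 1, 2 * M, ?_, by omega, ?_⟩
      · intro z hz
        rcases Multiset.mem_add.mp hz with h1 | h1
        · exact haW z h1
        · rw [Multiset.mem_singleton.mp h1]
          exact hwW
      · rw [Multiset.card_add, hk, Multiset.card_singleton]
        ring
      · rw [Multiset.prod_add, Multiset.prod_singleton, mul_pow, hMp, pow_mul w, hw2,
          ← pow_add, hk]
        congr 1
        ring
    · have h1 : ({w} : Multiset ℂ) + {w} = {w, (q : ℂ) / w} := by
        rw [hwd]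
        rfl
      rw [h1]
      exact isTate_pair hq hwW

/-- Multisets with members which are supersingular or members of a good one. -/
theorem GoodS.of_subset (hq : q ≠ 0) {s t : Multiset ℂ} (hG : GoodS p q s) (hT : IsTate q t)
    (ht : ∀ z ∈ t, ¬ Supersingular q z → z ∈ s) : GoodS p q t := by
  refine ⟨hT, ?_, ?_⟩
  · intro z hz
    by_cases hzn : Supersingular q z
    · exact Or.inl hzn
    · rcases hG.type z (ht z hz hzn) with h3 | h3 | h3 | ⟨h3, σ, h4, h5⟩
      · exact Or.inl h3
      · exact Or.inr (Or.inl h3)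
      · exact Or.inr (Or.inr (Or.inl h3))
      · exact Or.inr (Or.inr (Or.inr ⟨h3, σ, h4, fun y hy hyn => h5 y (ht y hy hyn) hyn⟩))
  · intro y hy z hz hyL hzL
    exact hG.clos y (ht y hy (hyL.not_supersingular hq (hT.1 y hy))) z
      (ht z hz (hzL.not_supersingular hq (hT.1 z hz))) hyL hzL

open scoped Classical in
/-- The main theorem. -/
theorem GoodS.g0 (hqp : q = p ^ f) (hq : q ≠ 0) (n : ℕ) : ∀ s : Multiset ℂ,
    Multiset.card (s.filter fun z => ¬ Supersingular q z) ≤ n → GoodS p q s → G0S p q s := by
  classical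
  induction n with
  | zero =>
    intro s hs hG
    apply G0S.of_G0
    apply G0.of_symm hq hG.tate
    intro z hz hzn
    have h1 : z ∈ s.filter fun z => ¬ Supersingular q z := Multiset.mem_filter.mpr ⟨hz, hzn⟩
    have h2 := Multiset.card_pos_iff_exists_mem.mpr ⟨z, h1⟩
    omega
  | succ n ih =>
    intro s hs hG
    by_cases hex : ∃ z ∈ s, ¬ Supersingular q z
    swap
    · push Not at hex
      exact G0S.of_G0 (G0.of_symm hq hG.tate fun z hz hzn => absurd (hex z hz) hzn)
    -- the general step
    have hstep : ∀ a b : Multiset ℂ, s = a + b → (∃ x ∈ a, ¬ Supersingular q x) →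
        ∀ u : Multiset ℂ, (∀ z ∈ u, Supersingular q z ∧ IsWeil q z) → IsTate q (b + u) →
        G0S p q (b + u) := by
      rintro a b hab ⟨x, hx, hxn⟩ u hu hbu
      apply ih
      · have h3 : (s.filter fun z => ¬ Supersingular q z) =
            (a.filter fun z => ¬ Supersingular q z) +
              (b.filter fun z => ¬ Supersingular q z) := by
          rw [← Multiset.filter_add, ← hab]
        have h4 : (u.filter fun z => ¬ Supersingular q z) = 0 := by
          rw [Multiset.filter_eq_nil]
          intro z hz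
          rw [not_not]
          exact (hu z hz).1
        have h5 : x ∈ a.filter fun z => ¬ Supersingular q z := Multiset.mem_filter.mpr ⟨hx, hxn⟩
        have h6 := Multiset.card_pos_iff_exists_mem.mpr ⟨x, h5⟩
        rw [Multiset.filter_add, h4, add_zero]
        rw [h3, Multiset.card_add] at hs
        omega
      · apply hG.of_subset hq hbu
        intro z hz hzn
        rcases Multiset.mem_add.mp hz with h3 | h3
        · rw [hab]
          exact Multiset.mem_add.mpr (Or.inr h3)
        · exact absurd (hu z h3).1 hzn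
    by_cases hiso : ∃ x ∈ s, ¬ Supersingular q x ∧ Iso p q x ∧ Isolated q s x
    · obtain ⟨x, hx, hxn, hxI, hxs⟩ := hiso
      set a := s.filter fun z => IsConjRoot ℚ x z with ha
      set b := s.filter fun z => ¬ IsConjRoot ℚ x z with hb
      have hab : s = a + b := (Multiset.filter_add_not _ _).symm
      have hxa : x ∈ a := Multiset.mem_filter.mpr ⟨hx, rfl⟩
      refine split hq hG.tate hab (isolated_pow hq hG.tate hxs hab
        (fun z hz => (Multiset.mem_filter.mp hz).2) (fun z hz => (Multiset.mem_filter.mp hz).2))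
        ?_ (hstep a b hab ⟨x, hxa, hxn⟩)
      intro u hu hau
      apply G0S.of_G0
      apply G0.one_orbit hqp hq hau (hG.tate.1 x hx) hxI
      intro z hz hzn
      rcases Multiset.mem_add.mp hz with h2 | h2
      · exact (Multiset.mem_filter.mp h2).2
      · exact absurd (hu z h2).1 hzn
    push Not at hiso
    by_cases hcl : ∃ x ∈ s, ∃ y ∈ s, Large p q x ∧ Large p q y ∧ ¬ IsConjRoot ℚ x y ∧ clo x = clo y
    · obtain ⟨x, hx, y, hy, hxL, hyL, hxy, hxyc⟩ := hcl
      have hxS : Simple p q 2 x := by
        rcases hG.clos x hx y hy hxL hyL hxy with h1 | h1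
        · exact absurd hxyc h1
        · exact h1.1
      have hxn := hxL.not_supersingular hq (hG.tate.1 x hx)
      set a := s.filter fun z => ¬ Supersingular q z ∧ clo z = clo x with ha
      set b := s.filter fun z => ¬ (¬ Supersingular q z ∧ clo z = clo x) with hb
      have hab : s = a + b := (Multiset.filter_add_not _ _).symm
      have hxa : x ∈ a := Multiset.mem_filter.mpr ⟨hx, hxn, rfl⟩
      obtain ⟨h1, h2⟩ := rr_mem_Sat hqp hq hG (fun z hz hzn h => hiso z hz hzn h.1 h.2) hx hxS hab
        (fun z hz => (Multiset.mem_filter.mp hz).2)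
        (fun z hz hzn h => (Multiset.mem_filter.mp hz).2 ⟨hzn, h⟩)
      refine split hq hG.tate hab h1 ?_ (hstep a b hab ⟨x, hxa, hxn⟩)
      intro u hu hau
      apply G0S.cluster hqp hq hau (K := clo x)
      intro z hz hzn
      rcases Multiset.mem_add.mp hz with h3 | h3
      · exact ⟨h2 z h3, (Multiset.mem_filter.mp h3).2.2⟩
      · exact absurd (hu z h3).1 hzn
    · apply G0S.of_G0
      apply GoodIso.g0 hqp hq _ s le_rfl
      refine ⟨hG.tate, hG.type, ?_⟩
      intro x hx y hy hxL hyL hxy h
      exact hcl ⟨x, hx, y, hy, hxL, hyL, hxy, h⟩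

end Pool.Agent.Lib.MP_950c68_ag.Surf
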